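import Pool.Agent.helper86.Zp.DegOne

/-!
Existence of the L-polynomial of a function field over a finite field.
-/

open scoped Polynomial WithZero

set_option linter.unusedSectionVars false

namespace Pool.Agent.helper90.Zp

section

variable {k F : Type*} [Field k] [Finite k] [Field F] [Algebra k F]
    [IsFunctionField k F] [IsFullConstantField k F]

theorem exists_const_of_divisor_eq {f g : F} (hf : f ≠ 0) (hg : g ≠ 0)
    (h : divisor k f = divisor k g) : ∃ c : k, c ≠ 0 ∧ f = algebraMap k F c * g := by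
  have hdiv : divisor k (f * g⁻¹) = 0 := by
    rw [divisor_mul hf (inv_ne_zero hg), divisor_inv, h, add_neg_cancel]
  have hne : f * g⁻¹ ≠ 0 := mul_ne_zero hf (inv_ne_zero hg)
  have halg : IsAlgebraic k (f * g⁻¹) := by
    by_contra htr
    obtain ⟨w, hw⟩ := Place.exists_of_transcendental (f * g⁻¹) htr
    have := congrArg (fun D => D w) hdiv
    simp only [divisor_apply, Finsupp.zero_apply] at this
    rw [w.ord_eq_zero_iff hne] at this
    rw [this] at hw
    exact lt_irrefl _ hw
  obtain ⟨c, hc⟩ := IsFullConstantField.exists_algebraMap_eq (k := k) _ halg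
  refine ⟨c, ?_, ?_⟩
  · rintro rfl
    rw [map_zero] at hc
    exact hne hc.symm
  · rw [hc, inv_mul_cancel_right₀ hg]

theorem divisor_const_mul {c : k} (hc : c ≠ 0) {g : F} (hg : g ≠ 0) :
    divisor k (algebraMap k F c * g) = divisor k g := by
  have hc' : algebraMap k F c ≠ 0 := by simpa using hc
  rw [divisor_mul hc' hg]
  have : divisor k (algebraMap k F c) = 0 := by
    ext v
    rw [divisor_apply, Finsupp.zero_apply, v.ord_eq_zero_iff hc']
    by_contra h
    exact transcendental_of_val_ne_one hc' h (isAlgebraic_algebraMap c)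
  rw [this, zero_add]

/-- the effective divisors of degree `d` in the class of `D` -/
def classSet (D : Place k F →₀ ℤ) (d : ℤ) : Set (Place k F →₀ ℤ) :=
  {D' | D' ∈ Eff (∅ : Finset (Place k F)) d ∧ ∃ h : F, h ≠ 0 ∧ D' = D + divisor k h}

theorem ncard_class (D : Place k F →₀ ℤ) (d : ℤ) (hD : degD D = d) :
    (Nat.card k - 1) * Set.ncard (classSet D d) =
      Nat.card k ^ Module.finrank k (LSpace D) - 1 := by
  classical
  have hfin : ((LSpace D : Submodule k F) : Set F).Finite := by
    have : Finite (LSpace D) := Module.finite_of_finite k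
    exact this
  set s := hfin.toFinset.erase 0 with hs
  have hmem : ∀ f, f ∈ s ↔ f ≠ 0 ∧ f ∈ LSpace D := by
    intro f
    rw [hs, Finset.mem_erase, Set.Finite.mem_toFinset]
    rfl
  have hcard : s.card = Nat.card k ^ Module.finrank k (LSpace D) - 1 := by
    rw [hs, Finset.card_erase_of_mem (by rw [Set.Finite.mem_toFinset]; exact Submodule.zero_mem _),
      ← Module.natCard_eq_pow_finrank (K := k), ← Set.ncard_eq_toFinset_card _ hfin]
    rfl
  have himg : (s.image (fun f => D + divisor k f) : Finset _) =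
      ((finite_Eff (∅ : Finset (Place k F)) d).subset (t := classSet D d)
        (fun _ hE => hE.1)).toFinset := by
    ext E
    rw [Finset.mem_image, Set.Finite.mem_toFinset]
    constructor
    · rintro ⟨f, hf, rfl⟩
      rw [hmem] at hf
      refine ⟨⟨?_, by simp, ?_⟩, f, hf.1, rfl⟩
      · rw [add_comm]
        exact (mem_LSpace_iff_ord hf.1).mp hf.2
      · rw [degD_add, hD, degD_divisor hf.1, add_zero]
    · rintro ⟨hE, h, hh, rfl⟩
      refine ⟨h, ?_, rfl⟩
      rw [hmem, mem_LSpace_iff_ord hh, add_comm]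
      exact ⟨hh, hE.1⟩
  have hfib : ∀ E ∈ s.image (fun f => D + divisor k f),
      (s.filter (fun f => D + divisor k f = E)).card = Nat.card k - 1 := by
    intro E hE
    obtain ⟨f0, hf0, rfl⟩ := Finset.mem_image.mp hE
    rw [hmem] at hf0
    have := Fintype.ofFinite k
    have h1 : s.filter (fun f => D + divisor k f = D + divisor k f0) =
        ((Finset.univ : Finset k).erase 0).image (fun c => algebraMap k F c * f0) := by
      ext f
      rw [Finset.mem_filter, hmem, Finset.mem_image]
      constructor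
      · rintro ⟨⟨hf, -⟩, hff⟩
        obtain ⟨c, hc, hcf⟩ := exists_const_of_divisor_eq hf hf0.1 (add_left_cancel hff)
        exact ⟨c, by simp [hc], hcf.symm⟩
      · rintro ⟨c, hc, rfl⟩
        have hc0 : c ≠ 0 := by simpa using hc
        have hc' : algebraMap k F c ≠ 0 := by simpa using hc0
        refine ⟨⟨mul_ne_zero hc' hf0.1, ?_⟩, ?_⟩
        · rw [← Algebra.smul_def]
          exact Submodule.smul_mem _ _ hf0.2
        · rw [divisor_const_mul hc0 hf0.1]
    rw [h1, Finset.card_image_of_injective, Finset.card_erase_of_mem (Finset.mem_univ _),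
      Finset.card_univ, Nat.card_eq_fintype_card]
    intro c c' h
    exact (algebraMap k F).injective (mul_right_cancel₀ hf0.1 h)
  have h2 := Finset.card_eq_sum_card_image (fun f => D + divisor k f) s
  rw [Finset.sum_congr rfl hfib, Finset.sum_const, smul_eq_mul, hcard, himg,
    ← Set.ncard_eq_toFinset_card (classSet D d) _] at h2
  rw [h2, mul_comm]

theorem mem_classSet_iff {D D' J : Place k F →₀ ℤ} {d d' : ℤ} (hD : D ∈ Eff ∅ d)
    (hD' : D' ∈ Eff ∅ d') :
    D' ∈ classSet (D + J) d' ↔ D ∈ classSet (D' - J) d := by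
  constructor
  · rintro ⟨-, h, hh, rfl⟩
    refine ⟨hD, h⁻¹, inv_ne_zero hh, ?_⟩
    rw [divisor_inv]
    abel
  · rintro ⟨-, h, hh, heq⟩
    refine ⟨hD', h⁻¹, inv_ne_zero hh, ?_⟩
    rw [divisor_inv]
    rw [heq]
    abel

variable (k F) in
theorem exists_numEff_rec : ∃ (d0 : ℕ) (e : ℕ → ℕ), (∀ d, d0 ≤ d → e (d + 1) = e d + 1) ∧
    ∀ d, d0 ≤ d → numEff k F d * (Nat.card k ^ e (d + 1) - 1) =
      numEff k F (d + 1) * (Nat.card k ^ e d - 1) := by
  classical
  obtain ⟨g, c, -, hR⟩ := exists_riemann k F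
  obtain ⟨J, hJ⟩ := exists_degD_eq_one k F
  have hq : 1 < Nat.card k := Finite.one_lt_card
  refine ⟨(max (max c g) 0).toNat, fun d => ((d : ℤ) - g).toNat, ?_, ?_⟩
  · intro d hd
    push_cast
    omega
  intro d hd
  have hell : ∀ (D : Place k F →₀ ℤ) (n : ℕ), d ≤ n → degD D = n →
      (Nat.card k - 1) * Set.ncard (classSet D n) = Nat.card k ^ ((n : ℤ) - g).toNat - 1 := by
    intro D n hn hD
    rw [ncard_class D n hD]
    have h1 := hR D (by rw [hD]; omega)
    rw [hD] at h1
    unfold ell at h1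
    have : Module.finrank k (LSpace D) = ((n : ℤ) - g).toNat := by omega
    rw [this]
  set S := (finite_Eff (∅ : Finset (Place k F)) (d : ℤ)).toFinset with hS
  set T := (finite_Eff (∅ : Finset (Place k F)) ((d + 1 : ℕ) : ℤ)).toFinset with hT
  have hSm : ∀ D, D ∈ S ↔ D ∈ Eff (∅ : Finset (Place k F)) (d : ℤ) := fun D => by
    rw [hS, Set.Finite.mem_toFinset]
  have hTm : ∀ D, D ∈ T ↔ D ∈ Eff (∅ : Finset (Place k F)) ((d + 1 : ℕ) : ℤ) := fun D => by
    rw [hT, Set.Finite.mem_toFinset]
  have hScard : S.card = numEff k F d := by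
    rw [numEff_eq, Set.ncard_eq_toFinset_card _ (finite_Eff _ _)]
  have hTcard : T.card = numEff k F (d + 1) := by
    rw [numEff_eq, Set.ncard_eq_toFinset_card _ (finite_Eff _ _)]
  have key := Finset.sum_card_bipartiteAbove_eq_sum_card_bipartiteBelow (s := S) (t := T)
    (fun D D' => D' ∈ classSet (D + J) ((d + 1 : ℕ) : ℤ))
  have h1 : ∀ D ∈ S, (Nat.card k - 1) *
      (T.bipartiteAbove (fun D D' => D' ∈ classSet (D + J) ((d + 1 : ℕ) : ℤ)) D).card =
      Nat.card k ^ (((d + 1 : ℕ) : ℤ) - g).toNat - 1 := by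
    intro D hD
    rw [hSm] at hD
    rw [← hell (D + J) (d + 1) (by omega) (by rw [degD_add, hD.2.2, hJ]; push_cast; ring),
      ← Set.ncard_coe_finset]
    congr 2
    ext D'
    simp only [Finset.coe_bipartiteAbove, Set.mem_ofPred_eq, hTm]
    exact ⟨fun h => h.2, fun h => ⟨h.1, h⟩⟩
  have h2 : ∀ D' ∈ T, (Nat.card k - 1) *
      (S.bipartiteBelow (fun D D' => D' ∈ classSet (D + J) ((d + 1 : ℕ) : ℤ)) D').card =
      Nat.card k ^ ((d : ℤ) - g).toNat - 1 := by
    intro D' hD'
    rw [hTm] at hD'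
    rw [← hell (D' - J) d le_rfl (by rw [degD_sub, hD'.2.2, hJ]; push_cast; ring),
      ← Set.ncard_coe_finset]
    congr 2
    ext D
    simp only [Finset.coe_bipartiteBelow, Set.mem_ofPred_eq, hSm]
    constructor
    · rintro ⟨h, h'⟩
      exact (mem_classSet_iff h hD').mp h'
    · intro h
      exact ⟨h.1, (mem_classSet_iff h.1 hD').mpr h⟩
  have key2 := congrArg (fun n => (Nat.card k - 1) * n) key
  simp only [Finset.mul_sum] at key2
  rw [Finset.sum_congr rfl h1, Finset.sum_congr rfl h2, Finset.sum_const, Finset.sum_const,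
    smul_eq_mul, smul_eq_mul, hScard, hTcard] at key2
  exact key2

variable (k F) in
theorem exists_numEff_lin : ∃ d0 : ℕ, ∀ d, d0 ≤ d →
    (numEff k F (d + 2) : ℤ) - (1 + Nat.card k) * numEff k F (d + 1) +
      Nat.card k * numEff k F d = 0 := by
  obtain ⟨d0, e, he, hrec⟩ := exists_numEff_rec k F
  have hq : 1 < Nat.card k := Finite.one_lt_card
  refine ⟨d0, fun d hd => ?_⟩
  have h1 := hrec d hd
  have h2 := hrec (d + 1) (by omega)
  rw [he (d + 1) (by omega), he d hd] at h2
  rw [he d hd] at h1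
  have hpos : ∀ n, 1 ≤ Nat.card k ^ n := fun n => Nat.one_le_pow _ _ (by omega)
  zify [hpos] at h1 h2
  set q : ℤ := (Nat.card k : ℤ) with hq'
  set Q : ℤ := q ^ e d with hQ
  have hQ1 : 1 ≤ Q := by
    rw [hQ, hq']
    exact_mod_cast hpos (e d)
  have hq1 : 2 ≤ q := by rw [hq']; exact_mod_cast hq
  have e1 : q ^ (e d + 1) = Q * q := by rw [pow_succ]
  have e2 : q ^ (e d + 1 + 1) = Q * q * q := by rw [pow_succ, pow_succ]
  rw [e1] at h1 h2
  rw [e2] at h2
  have h3 : (Q * q - 1) * ((numEff k F (d + 2) : ℤ) - (1 + q) * numEff k F (d + 1) +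
      q * numEff k F d) = 0 := by
    linear_combination -h2 + q * h1
  rcases mul_eq_zero.mp h3 with h4 | h4
  · exfalso; nlinarith
  · exact h4

variable (k F) in
/-- existence of the L-polynomial -/
theorem exists_LPolynomial : ∃ P : ℤ[X], IsLPolynomial k F P := by
  obtain ⟨d0, hd0⟩ := exists_numEff_lin k F
  set f : PowerSeries ℤ := zetaSeries k F * (1 - PowerSeries.X) *
    (1 - PowerSeries.C (Nat.card k : ℤ) * PowerSeries.X) with hf
  have hcoeff : ∀ n, PowerSeries.coeff n (zetaSeries k F) = (numEff k F n : ℤ) := by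
    intro n
    unfold zetaSeries numEff
    rw [PowerSeries.coeff_mk]
  have hz : ∀ n, d0 + 2 ≤ n → PowerSeries.coeff n f = 0 := by
    intro n hn
    obtain ⟨d, rfl⟩ : ∃ d, n = d + 2 := ⟨n - 2, by omega⟩
    have h1 : f = zetaSeries k F - PowerSeries.C (1 + (Nat.card k : ℤ)) *
        (zetaSeries k F * PowerSeries.X) + PowerSeries.C (Nat.card k : ℤ) *
        (zetaSeries k F * PowerSeries.X * PowerSeries.X) := by
      rw [hf, map_add, map_one]
      ring
    rw [h1, map_add, map_sub, PowerSeries.coeff_C_mul, PowerSeries.coeff_C_mul,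
      PowerSeries.coeff_succ_mul_X, PowerSeries.coeff_succ_mul_X, PowerSeries.coeff_succ_mul_X,
      hcoeff, hcoeff, hcoeff]
    exact hd0 d (by omega)
  refine ⟨PowerSeries.trunc (d0 + 2) f, ?_⟩
  unfold IsLPolynomial
  ext n
  rw [Polynomial.coeff_coe, PowerSeries.coeff_trunc]
  split_ifs with h
  · rfl
  · exact (hz n (by omega)).symm

end

end Pool.Agent.helper90.Zp
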