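import Pool.Agent.helper41.Zp.Galois
import Pool.Agent.helper68.Zp.MapPlace
import Pool.Agent.helper90.Zp.Growth

/-!
Constant field extensions of a function field all of whose places have degree divisible by `n`.
-/

open scoped Polynomial WithZero

set_option linter.unusedSectionVars false

namespace Pool.Agent.helper90.Zp

open Pool.Agent.helper68.Zp

theorem exists_eq_of_pow_card {A B : Type*} [Field A] [Finite A] [Field B] (f : A →+* B) (y : B)
    (hy : y ^ Nat.card A = y) : ∃ a, f a = y := by
  classical
  have := Fintype.ofFinite A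
  set g : B[X] := Polynomial.X ^ Nat.card A - Polynomial.X with hg
  have hg0 : g ≠ 0 := FiniteField.X_pow_card_sub_X_ne_zero B Finite.one_lt_card
  have hdeg : g.natDegree = Nat.card A :=
    FiniteField.X_pow_card_sub_X_natDegree_eq B Finite.one_lt_card
  have hmem : ∀ z : B, z ∈ g.roots.toFinset ↔ z ^ Nat.card A = z := by
    intro z
    rw [Multiset.mem_toFinset, Polynomial.mem_roots hg0, Polynomial.IsRoot.def, hg,
      Polynomial.eval_sub, Polynomial.eval_pow, Polynomial.eval_X, sub_eq_zero]
  have hsub : Finset.univ.image f ⊆ g.roots.toFinset := by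
    intro z hz
    obtain ⟨a, -, rfl⟩ := Finset.mem_image.mp hz
    rw [hmem, ← map_pow, Nat.card_eq_fintype_card, FiniteField.pow_card]
  have hcard : g.roots.toFinset.card ≤ (Finset.univ.image f).card := by
    rw [Finset.card_image_of_injective _ f.injective, Finset.card_univ,
      ← Nat.card_eq_fintype_card, ← hdeg]
    exact (Multiset.toFinset_card_le _).trans (Polynomial.card_roots' g)
  have heq := Finset.eq_of_subset_of_card_le hsub hcard
  have hy' : y ∈ Finset.univ.image f := by rw [heq, hmem]; exact hy
  obtain ⟨a, -, ha⟩ := Finset.mem_image.mp hy'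
  exact ⟨a, ha⟩

section

variable {k K L : Type*} [Field k] [Field K] [Field L] [Algebra k K] [Algebra k L]
  [Algebra K L] [IsScalarTower k K L] [FiniteDimensional K L]

/-- the place `τ(w)` -/
def conj (τ : L ≃ₐ[K] L) (w : Place k L) : Place k L := mapPlace (τ.restrictScalars k) w

theorem mem_conj (τ : L ≃ₐ[K] L) (w : Place k L) (x : L) :
    x ∈ (conj τ w).ring ↔ τ.symm x ∈ w.ring := Iff.rfl

theorem conj_below (τ : L ≃ₐ[K] L) (w : Place k L) : (conj τ w).below K = w.below K := by
  apply Place.ext'
  ext x
  change τ.symm (algebraMap K L x) ∈ w.ring ↔ algebraMap K L x ∈ w.ring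
  rw [AlgEquiv.commutes]

theorem conj_conj (σ τ : L ≃ₐ[K] L) (w : Place k L) : conj σ (conj τ w) = conj (σ * τ) w := by
  apply Place.ext'
  ext x
  rfl

theorem conj_one (w : Place k L) : conj (1 : L ≃ₐ[K] L) w = w := by
  apply Place.ext'
  ext x
  rfl

theorem conj_valuation_lt_one (τ : L ≃ₐ[K] L) (w : Place k L) (x : L) :
    (conj τ w).ring.valuation (τ x) < 1 ↔ w.ring.valuation x < 1 := by
  by_cases hx : x = 0
  · simp [hx]
  rw [valuation_lt_one_iff_inv _ (by simpa using hx), valuation_lt_one_iff_inv _ hx,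
    ValuationSubring.valuation_le_one_iff, ValuationSubring.valuation_le_one_iff, mem_conj,
    ← map_inv₀, AlgEquiv.symm_apply_apply]

theorem exists_residue_eq [Finite k] [IsFunctionField k K] [IsFunctionField k L] {v : Place k K}
    {w : Place k L} (h : w.below K = v) (x : L) (hx : x ∈ w.ring)
    (hpow : w.ring.valuation (x ^ Nat.card (IsLocalRing.ResidueField v.ring) - x) < 1) :
    ∃ a : K, a ∈ v.ring ∧ w.ring.valuation (x - algebraMap K L a) < 1 := by
  let i : v.ring →+* w.ring := ((algebraMap K L).comp (algebraMap v.ring K)).codRestrict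
    w.ring.toSubring (fun a => (Place.mem_ring_of_below_eq h).mpr a.2)
  have hi : IsLocalHom i := by
    constructor
    intro a ha
    by_contra hna
    have h1 : v.ring.valuation (a : K) < 1 := by
      rw [← ValuationSubring.valuation_lt_one_iff]
      exact hna
    rw [← Place.valuation_lt_one_of_below h] at h1
    have h2 := (ValuationSubring.valuation_lt_one_iff w.ring (i a)).mpr h1
    exact h2 ha
  obtain ⟨y, hy⟩ := exists_eq_of_pow_card (IsLocalRing.ResidueField.map i)
    (IsLocalRing.residue w.ring ⟨x, hx⟩) (by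
      rw [← map_pow, ← sub_eq_zero, ← map_sub, IsLocalRing.residue_eq_zero_iff,
        ValuationSubring.valuation_lt_one_iff]
      exact hpow)
  obtain ⟨a, rfl⟩ := IsLocalRing.residue_surjective y
  refine ⟨a, a.2, ?_⟩
  rw [IsLocalRing.ResidueField.map_residue, eq_comm, ← sub_eq_zero, ← map_sub,
    IsLocalRing.residue_eq_zero_iff, ValuationSubring.valuation_lt_one_iff] at hy
  exact hy

theorem val_eq_of_pow {w : Place k L} {N : ℕ} (hN : 2 ≤ N) {α : L} (hα : α ^ N = α)
    (h : w.ring.valuation α < 1) : α = 0 := by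
  by_contra h0
  have h1 : α ^ (N - 1) = 1 := by
    have h2 : α ^ (N - 1) * α = 1 * α := by
      rw [← pow_succ, Nat.sub_add_cancel (by omega), hα, one_mul]
    exact mul_right_cancel₀ h0 h2
  have h3 : w.ring.valuation α ^ (N - 1) = 1 := by rw [← map_pow, h1, map_one]
  have h4 : w.ring.valuation α ^ (N - 1) < 1 := pow_lt_one₀ zero_le h (by omega)
  exact h4.ne h3

theorem pow_iterate_eq {R : Type*} [Monoid R] {Q : ℕ} {α : R} (hα : α ^ Q = α) (m : ℕ) :
    α ^ (Q ^ m) = α := by
  induction m with
  | zero => simp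
  | succ m ih => rw [pow_succ, pow_mul, ih, hα]

/-- the stabilizer of a place is trivial on the roots of unity in the base residue field -/
theorem fix_of_conj_eq [Finite k] [IsFunctionField k K] [IsFunctionField k L] {n : ℕ}
    (hn0 : n ≠ 0) {w : Place k L} (hn : n ∣ (w.below K).deg) (τ : L ≃ₐ[K] L)
    (hτ : conj τ w = w) {α : L} (hα : α ^ (Nat.card k ^ n) = α) : τ α = α := by
  have hq : 1 < Nat.card k := Finite.one_lt_card
  have hN : 2 ≤ Nat.card k ^ n := Nat.succ_le_of_lt (Nat.one_lt_pow hn0 hq)
  have hαw : α ∈ w.ring := by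
    by_contra h
    have h1 : α⁻¹ ∈ w.ring := (w.ring.mem_or_inv_mem α).resolve_left h
    have hα0 : α ≠ 0 := by rintro rfl; exact h (zero_mem _)
    have h2 : w.ring.valuation α⁻¹ < 1 := by
      rw [valuation_lt_one_iff_inv _ (inv_ne_zero hα0), inv_inv,
        ValuationSubring.valuation_le_one_iff]
      exact h
    have h3 := val_eq_of_pow hN (by rw [inv_pow, hα]) h2
    exact (inv_ne_zero hα0) h3
  obtain ⟨a, ha, hval⟩ := exists_residue_eq (v := w.below K) rfl α hαw (by
    rw [Place.card_residueField]
    obtain ⟨c, hc⟩ := hn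
    rw [hc, pow_mul, pow_iterate_eq hα, sub_self, map_zero]
    exact zero_lt_one)
  have h2 : w.ring.valuation (τ α - algebraMap K L a) < 1 := by
    have := (conj_valuation_lt_one τ w (α - algebraMap K L a)).mpr hval
    rwa [hτ, map_sub, AlgEquiv.commutes] at this
  have h3 : w.ring.valuation (τ α - α) < 1 := by
    have : τ α - α = (τ α - algebraMap K L a) - (α - algebraMap K L a) := by ring
    rw [this]
    exact (Valuation.map_sub _ _ _).trans_lt (max_lt h2 hval)
  have h4 : (τ α - α) ^ (Nat.card k ^ n) = τ α - α := by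
    obtain ⟨p, hp⟩ := CharP.exists k
    have hpp : Fact p.Prime := ⟨CharP.char_is_prime k p⟩
    have := Fintype.ofFinite k
    obtain ⟨m, -, hm⟩ := FiniteField.card k p
    have : CharP L p := charP_of_injective_algebraMap (algebraMap k L).injective p
    rw [Nat.card_eq_fintype_card, hm, ← pow_mul, sub_pow_char_pow, ← map_pow, pow_mul, ← hm,
      ← Nat.card_eq_fintype_card, hα]
  exact sub_eq_zero.mp (val_eq_of_pow hN h4 h3)

theorem conj_injective [Finite k] [IsFunctionField k K] [IsFunctionField k L] {n : ℕ}
    (hn0 : n ≠ 0) (hn : ∀ v : Place k K, n ∣ v.deg)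
    (hgen : ∀ τ : L ≃ₐ[K] L, (∀ α, α ^ (Nat.card k ^ n) = α → τ α = α) → τ = 1)
    {σ τ : L ≃ₐ[K] L} {w : Place k L} (h : conj σ w = conj τ w) : σ = τ := by
  have h1 : conj (τ⁻¹ * σ) w = w := by
    rw [← conj_conj, h, conj_conj, inv_mul_cancel, conj_one]
  have h2 := hgen (τ⁻¹ * σ) (fun α hα => fix_of_conj_eq hn0 (hn _) _ h1 hα)
  rw [inv_mul_eq_one] at h2
  exact h2.symm

theorem deg_eq_of_generated [Finite k] [IsFunctionField k K] [IsFunctionField k L] [IsGalois K L]
    {n : ℕ} (hn0 : n ≠ 0) (hn : ∀ v : Place k K, n ∣ v.deg)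
    (hgen : ∀ τ : L ≃ₐ[K] L, (∀ α, α ^ (Nat.card k ^ n) = α → τ α = α) → τ = 1)
    (w : Place k L) : w.deg = (w.below K).deg := by
  have hcard := Place.card_below_mul (K := K) (v := w.below K) (w := w) rfl
  have hle : Nat.card (L ≃ₐ[K] L) ≤ Nat.card {w' : Place k L // w'.below K = w.below K} := by
    have : Finite {w' : Place k L // w'.below K = w.below K} := finite_below (w.below K)
    apply Nat.card_le_card_of_injective
      (fun σ : L ≃ₐ[K] L => (⟨conj σ w, conj_below σ w⟩ :
        {w' : Place k L // w'.below K = w.below K}))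
    intro σ τ h
    exact conj_injective hn0 hn hgen (congrArg Subtype.val h)
  have hpos : 0 < Nat.card (L ≃ₐ[K] L) := Nat.card_pos
  have hb : w.below K = w.below K := rfl
  have hef : (Place.primeOf hb).ramificationIdx (w.below K).ring *
      (Place.primeOf hb).inertiaDeg (w.below K).ring = 1 := by
    set e := (Place.primeOf hb).ramificationIdx (w.below K).ring *
      (Place.primeOf hb).inertiaDeg (w.below K).ring with he
    have h1 : e ≠ 0 := by
      rintro h0
      rw [h0, mul_zero] at hcard
      omega
    by_contra h2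
    have h3 : 2 ≤ e := by omega
    have h4 : Nat.card {w' : Place k L // w'.below K = w.below K} * 2 ≤
        Nat.card {w' : Place k L // w'.below K = w.below K} * e := by gcongr
    rw [hcard] at h4
    omega
  rw [Place.deg_eq_inertiaDeg_mul hb, Nat.eq_one_of_mul_eq_one_left hef, one_mul]

end

section splitting

variable (k K : Type*) [Field k] [Finite k] [Field K] [Algebra k K] [IsFunctionField k K]

/-- the constant field extension of degree `n` -/
abbrev ConstExt (n : ℕ) : Type _ :=
  (Polynomial.X ^ (Nat.card k ^ n) - Polynomial.X : K[X]).SplittingField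

theorem separable_X_pow_sub_X {n : ℕ} (hn0 : n ≠ 0) :
    (Polynomial.X ^ (Nat.card k ^ n) - Polynomial.X : K[X]).Separable := by
  obtain ⟨p, hp⟩ := CharP.exists k
  have hpp : Fact p.Prime := ⟨CharP.char_is_prime k p⟩
  have := Fintype.ofFinite k
  obtain ⟨m, -, hm⟩ := FiniteField.card k p
  have : CharP K p := charP_of_injective_algebraMap (algebraMap k K).injective p
  apply galois_poly_separable p
  rw [Nat.card_eq_fintype_card, hm, ← pow_mul]
  exact dvd_pow_self p (mul_ne_zero m.pos.ne' hn0)

theorem ConstExt.isGalois {n : ℕ} (hn0 : n ≠ 0) : IsGalois K (ConstExt k K n) :=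
  IsGalois.of_separable_splitting_field (separable_X_pow_sub_X k K hn0)

theorem ConstExt.eq_one {n : ℕ} (τ : ConstExt k K n ≃ₐ[K] ConstExt k K n)
    (h : ∀ α, α ^ (Nat.card k ^ n) = α → τ α = α) : τ = 1 := by
  have h1 := Polynomial.IsSplittingField.adjoin_rootSet (L := ConstExt k K n)
    (Polynomial.X ^ (Nat.card k ^ n) - Polynomial.X : K[X])
  have h2 : (τ : ConstExt k K n →ₐ[K] ConstExt k K n) = AlgHom.id K _ := by
    apply AlgHom.ext_of_adjoin_eq_top h1
    intro α hα
    rw [Polynomial.mem_rootSet] at hα
    apply h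
    have := hα.2
    simpa [sub_eq_zero] using this
  ext x
  exact DFunLike.congr_fun h2 x

theorem ConstExt.exists_ne_one [IsFullConstantField k K] {n : ℕ} (hn : 2 ≤ n) :
    ∃ τ : ConstExt k K n ≃ₐ[K] ConstExt k K n, τ ≠ 1 := by
  classical
  by_contra! hall
  have hn0 : n ≠ 0 := by omega
  have := ConstExt.isGalois k K hn0
  have hq : 1 < Nat.card k := Finite.one_lt_card
  set f : K[X] := Polynomial.X ^ (Nat.card k ^ n) - Polynomial.X with hf
  -- every root of `f` lies in `k`
  have hroot : ∀ α : ConstExt k K n, α ^ (Nat.card k ^ n) = α →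
      ∃ a : k, algebraMap k (ConstExt k K n) a = α := by
    intro α hα
    obtain ⟨b, hb⟩ : ∃ b : K, algebraMap K (ConstExt k K n) b = α := by
      rw [← Set.mem_range, IsGalois.mem_range_algebraMap_iff_fixed]
      intro τ
      rw [hall τ]; rfl
    have hint : IsIntegral k α := by
      refine ⟨Polynomial.X ^ (Nat.card k ^ n) - Polynomial.X, ?_, ?_⟩
      · have hN : 1 < Nat.card k ^ n := Nat.one_lt_pow hn0 hq
        exact Polynomial.monic_X_pow_sub (by rw [Polynomial.degree_X]; exact_mod_cast hN)
      · simp [hα]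
    have halg : IsAlgebraic k b := by
      have h1 : IsIntegral k b := by
        rw [← isIntegral_algebraMap_iff (B := ConstExt k K n)
          (algebraMap K (ConstExt k K n)).injective, hb]
        exact hint
      exact h1.isAlgebraic
    obtain ⟨a, rfl⟩ := IsFullConstantField.exists_algebraMap_eq (k := k) b halg
    exact ⟨a, by rw [← hb, ← IsScalarTower.algebraMap_apply]⟩
  have hcard := Polynomial.card_rootSet_eq_natDegree (K := ConstExt k K n)
    (separable_X_pow_sub_X k K hn0)
    (Polynomial.IsSplittingField.splits _ _)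
  rw [FiniteField.X_pow_card_sub_X_natDegree_eq K (Nat.one_lt_pow hn0 hq),
    ← Nat.card_eq_fintype_card] at hcard
  have hle : Nat.card (f.rootSet (ConstExt k K n)) ≤ Nat.card k := by
    have h1 : f.rootSet (ConstExt k K n) ⊆ Set.range (algebraMap k (ConstExt k K n)) := by
      intro α hα
      rw [Polynomial.mem_rootSet] at hα
      apply hroot
      have := hα.2
      simpa [hf, sub_eq_zero] using this
    have h2 : Nat.card (Set.range (algebraMap k (ConstExt k K n))) = Nat.card k :=
      Nat.card_range_of_injective (algebraMap k (ConstExt k K n)).injective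
    exact (Nat.card_mono (Set.finite_range _) h1).trans h2.le
  rw [hcard] at hle
  have h3 : Nat.card k ^ 2 ≤ Nat.card k ^ n := Nat.pow_le_pow_right (by omega) hn
  nlinarith

end splitting

end Pool.Agent.helper90.Zp
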