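import Pool.Agent.helper90.Zp.Growth

/-!
Bounds for the number of effective divisors of given degree.
-/

open scoped Polynomial WithZero

set_option linter.unusedSectionVars false

namespace Pool.Agent.helper90.Zp

section

variable {k F : Type*} [Field k] [Field F] [Algebra k F] [IsFunctionField k F] [Finite k]

variable (k F) in
/-- the number of effective divisors of degree `d` -/
noncomputable def numEff (d : ℕ) : ℕ :=
  Nat.card {D : Place k F →₀ ℕ // (D.sum fun v m => m * v.deg) = d}

theorem numEff_eq (d : ℕ) : numEff k F d = Set.ncard (Eff (∅ : Finset (Place k F)) d) :=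
  card_eff_eq d

theorem finite_effDiv (d : ℕ) :
    Finite {D : Place k F →₀ ℕ // (D.sum fun v m => m * v.deg) = d} := by
  have hfin := finite_Eff (∅ : Finset (Place k F)) (d : ℤ)
  have : Finite (Eff (∅ : Finset (Place k F)) (d : ℤ)) := hfin
  refine Finite.of_injective (β := Eff (∅ : Finset (Place k F)) (d : ℤ))
    (fun D => ⟨toZ D.1, toZ_nonneg D.1, by simp, by rw [degD_toZ, D.2]⟩) ?_
  intro D E h
  apply Subtype.ext
  apply toZ_injective
  exact congrArg Subtype.val h

/-- effective divisors linearly equivalent to `E` -/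
theorem ncard_equiv_le (E : Place k F →₀ ℤ) (d : ℕ) :
    Set.ncard {D | D ∈ Eff (∅ : Finset (Place k F)) (d : ℤ) ∧ ∃ h : F, h ≠ 0 ∧
      D = E + divisor k h} ≤ Nat.card k ^ (ell (0 : Place k F →₀ ℤ)).toNat * Nat.card k ^ d := by
  classical
  by_cases hne : {D | D ∈ Eff (∅ : Finset (Place k F)) (d : ℤ) ∧ ∃ h : F, h ≠ 0 ∧
      D = E + divisor k h}.Nonempty
  · obtain ⟨D0, hD0, h0, hh0, hE0⟩ := hne
    have hsub : {D | D ∈ Eff (∅ : Finset (Place k F)) (d : ℤ) ∧ ∃ h : F, h ≠ 0 ∧
        D = E + divisor k h} ⊆ (fun f => D0 + divisor k f) '' (LSpace D0 : Set F) := by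
      rintro D ⟨hD, h, hh, rfl⟩
      refine ⟨h * h0⁻¹, ?_, ?_⟩
      · change h * h0⁻¹ ∈ LSpace D0
        rw [mem_LSpace_iff_ord (mul_ne_zero hh (inv_ne_zero hh0)), hE0,
          divisor_mul hh (inv_ne_zero hh0), divisor_inv]
        have := hD.1
        have heq : divisor k h + -divisor k h0 + (E + divisor k h0) = E + divisor k h := by abel
        rw [heq]
        exact this
      · change D0 + divisor k (h * h0⁻¹) = E + divisor k h
        rw [hE0, divisor_mul hh (inv_ne_zero hh0), divisor_inv]
        abel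
    have hfin : ((LSpace D0 : Submodule k F) : Set F).Finite := by
      have : Finite (LSpace D0) := Module.finite_of_finite k
      exact this
    calc _ ≤ Set.ncard ((fun f => D0 + divisor k f) '' (LSpace D0 : Set F)) :=
          Set.ncard_le_ncard hsub (hfin.image _)
      _ ≤ Set.ncard (LSpace D0 : Set F) := Set.ncard_image_le hfin
      _ = Nat.card (LSpace D0) := rfl
      _ = Nat.card k ^ Module.finrank k (LSpace D0) := Module.natCard_eq_pow_finrank
      _ ≤ Nat.card k ^ ((ell (0 : Place k F →₀ ℤ)).toNat + d) := by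
        apply Nat.pow_le_pow_right Nat.card_pos
        have h1 := ell_le_of_nonneg hD0.1
        rw [hD0.2.2] at h1
        unfold ell at h1 ⊢
        omega
      _ = _ := pow_add _ _ _
  · rw [Set.not_nonempty_iff_eq_empty] at hne
    rw [hne, Set.ncard_empty]
    exact Nat.zero_le _

variable (k F) in
/-- upper bound for the number of effective divisors -/
theorem exists_numEff_le : ∃ C : ℕ, ∀ d : ℕ, numEff k F d ≤ C * Nat.card k ^ d := by
  classical
  obtain ⟨P⟩ := nonempty_place k F
  obtain ⟨g, c1, hR, -⟩ := exists_riemann k F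
  have hm : 0 < P.deg := P.deg_pos
  -- the finite set of small effective divisors
  set S : Set (Place k F →₀ ℤ) := ⋃ e ∈ Finset.Ico (g + 1) (g + 1 + P.deg),
    Eff (∅ : Finset (Place k F)) e with hS
  have hSfin : S.Finite := Set.Finite.biUnion (Finset.finite_toSet _) (fun e _ => finite_Eff _ e)
  refine ⟨Nat.card k ^ (ell (0 : Place k F →₀ ℤ)).toNat * hSfin.toFinset.card, fun d => ?_⟩
  rw [numEff_eq, Set.ncard_eq_toFinset_card _ (finite_Eff _ _)]
  set t : ℤ := (d - (g + 1)) / (P.deg : ℤ) with ht
  have ht1 : g + 1 ≤ d - t * P.deg := by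
    have := Int.ediv_mul_le ((d : ℤ) - (g + 1)) (b := (P.deg : ℤ)) (by omega)
    rw [← ht] at this
    linarith
  have ht2 : d - t * P.deg < g + 1 + P.deg := by
    have := Int.lt_ediv_add_one_mul_self ((d : ℤ) - (g + 1)) (b := (P.deg : ℤ)) (by omega)
    rw [← ht] at this
    linarith
  have hex : ∀ D : Place k F →₀ ℤ, D ∈ Eff (∅ : Finset (Place k F)) (d : ℤ) →
      ∃ G : Place k F →₀ ℤ, G ∈ S ∧ ∃ h : F, h ≠ 0 ∧
        D = (G + Finsupp.single P t) + divisor k h := by
    intro D hD
    have h1 := hR (D - Finsupp.single P t)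
    rw [degD_sub, degD_single, hD.2.2] at h1
    have h2 : 0 < ell (D - Finsupp.single P t) := by linarith
    rw [ell_pos_iff] at h2
    obtain ⟨z, hz, hz0⟩ := h2
    refine ⟨D - Finsupp.single P t + divisor k z, ?_, z⁻¹, inv_ne_zero hz0, ?_⟩
    · rw [hS]
      simp only [Set.mem_iUnion, Finset.mem_Ico]
      refine ⟨d - t * P.deg, ⟨ht1, ht2⟩, ?_, by simp, ?_⟩
      · rw [add_comm]
        exact (mem_LSpace_iff_ord hz0).mp hz
      · rw [degD_add, degD_sub, degD_single, hD.2.2, degD_divisor hz0, add_zero]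
    · rw [divisor_inv]
      abel
  choose! φ hφS hφ using hex
  have key := Finset.card_le_mul_card_image_of_maps_to
    (s := (finite_Eff (∅ : Finset (Place k F)) (d : ℤ)).toFinset) (t := hSfin.toFinset)
    (f := φ) (by
      intro D hD
      rw [Set.Finite.mem_toFinset] at hD ⊢
      exact hφS D hD)
    (Nat.card k ^ (ell (0 : Place k F →₀ ℤ)).toNat * Nat.card k ^ d) (by
      intro G _
      refine le_trans ?_ (ncard_equiv_le (G + Finsupp.single P t) d)
      rw [← Set.ncard_coe_finset]
      apply Set.ncard_le_ncard _ ((finite_Eff (∅ : Finset (Place k F)) (d : ℤ)).subset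
        (fun D hD => hD.1))
      intro D hD
      simp only [Finset.coe_filter, Set.Finite.mem_toFinset, Set.mem_ofPred_eq] at hD
      refine ⟨hD.1, ?_⟩
      have := hφ D hD.1
      rw [hD.2] at this
      exact this)
  calc _ ≤ _ := key
    _ = _ := by ring

variable (k F) in
/-- lower bound for the number of effective divisors -/
theorem exists_le_numEff : ∃ m C : ℕ, 0 < m ∧ ∀ t : ℕ,
    Nat.card k ^ (t * m) ≤ C * numEff k F (t * m) := by
  classical
  obtain ⟨P⟩ := nonempty_place k F
  obtain ⟨g, c1, hR, -⟩ := exists_riemann k F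
  refine ⟨P.deg, Nat.card k ^ g.toNat * (1 + Nat.card (LSpace (0 : Place k F →₀ ℤ))),
    P.deg_pos, fun t => ?_⟩
  have h1 := card_LSpace_le (Finsupp.single P (t : ℤ) : Place k F →₀ ℤ)
  rw [degD_single, show ((t : ℤ) * (P.deg : ℤ)) = ((t * P.deg : ℕ) : ℤ) by push_cast; ring,
    Module.natCard_eq_pow_finrank (K := k), ← numEff_eq] at h1
  have h2 := hR (Finsupp.single P (t : ℤ) : Place k F →₀ ℤ)
  rw [degD_single] at h2
  unfold ell at h2
  have hpos : 1 ≤ numEff k F (t * P.deg) := by
    unfold numEff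
    have := finite_effDiv (k := k) (F := F) (t * P.deg)
    have : Nonempty {D : Place k F →₀ ℕ // (D.sum fun v m => m * v.deg) = t * P.deg} :=
      ⟨⟨Finsupp.single P t, by simp⟩⟩
    exact Nat.card_pos
  calc Nat.card k ^ (t * P.deg) ≤ Nat.card k ^ (g.toNat +
        Module.finrank k (LSpace (Finsupp.single P (t : ℤ) : Place k F →₀ ℤ))) := by
        apply Nat.pow_le_pow_right Nat.card_pos
        have : ((t * P.deg : ℕ) : ℤ) ≤ g.toNat +
            (Module.finrank k (LSpace (Finsupp.single P (t : ℤ) : Place k F →₀ ℤ)) : ℤ) := by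
          push_cast
          have := Int.self_le_toNat g
          linarith
        exact_mod_cast this
    _ = Nat.card k ^ g.toNat * Nat.card k ^
        Module.finrank k (LSpace (Finsupp.single P (t : ℤ) : Place k F →₀ ℤ)) := pow_add _ _ _
    _ ≤ Nat.card k ^ g.toNat * (1 + Nat.card (LSpace (0 : Place k F →₀ ℤ)) *
        numEff k F (t * P.deg)) := by gcongr
    _ ≤ Nat.card k ^ g.toNat * ((1 + Nat.card (LSpace (0 : Place k F →₀ ℤ))) *
        numEff k F (t * P.deg)) := by
        gcongr
        rw [add_mul, one_mul]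
        gcongr
    _ = _ := by ring

end

end Pool.Agent.helper90.Zp
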