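import Mathlib

/-!
# Module D of MP_7758f8_nt, part 2: cyclotomic lower bound
-/

open scoped Polynomial

namespace Pool.Agent.helper90.Zp

open Polynomial

/-- `Φ_{p^{n+1}}` is irreducible over `ℚ_p` -/
theorem irreducible_cyclotomic_padic (p : ℕ) [hp : Fact p.Prime] (n : ℕ) :
    Irreducible (cyclotomic (p ^ (n + 1)) ℚ_[p]) := by
  have hmonic : (cyclotomic (p ^ (n + 1)) ℤ_[p]).Monic := cyclotomic.monic _ _
  have h1 : Irreducible (cyclotomic (p ^ (n + 1)) ℤ_[p]) := by
    set f : ℤ_[p][X] := (cyclotomic (p ^ (n + 1)) ℤ_[p]).comp (X + C 1) with hf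
    have hfm : f.Monic := by
      refine hmonic.comp (monic_X_add_C 1) fun h => ?_
      rw [natDegree_X_add_C] at h
      exact zero_ne_one h.symm
    have hE := cyclotomic_prime_pow_comp_X_add_one_isEisensteinAt p n
    have hW := hE.isWeaklyEisensteinAt.map (Int.castRingHom ℤ_[p])
    have hfmap : ((cyclotomic (p ^ (n + 1)) ℤ).comp (X + 1)).map (Int.castRingHom ℤ_[p]) = f := by
      rw [Polynomial.map_comp, map_cyclotomic]
      simp [hf]
    rw [hfmap] at hW
    have hideal : Ideal.map (Int.castRingHom ℤ_[p]) (Submodule.span ℤ {(p : ℤ)}) =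
        Ideal.span {(p : ℤ_[p])} := by
      rw [Ideal.submodule_span_eq, Ideal.map_span, Set.image_singleton]
      simp
    rw [hideal] at hW
    have hprime : (Ideal.span {(p : ℤ_[p])} : Ideal ℤ_[p]).IsPrime :=
      (Ideal.span_singleton_prime (PadicInt.prime_p (p := p)).ne_zero).2 PadicInt.prime_p
    have hEis : f.IsEisensteinAt (Ideal.span {(p : ℤ_[p])}) := by
      refine hfm.isEisensteinAt_of_mem_of_notMem hprime.ne_top (fun {i} hi => hW.mem hi) ?_
      rw [coeff_zero_eq_eval_zero, hf, eval_comp, eval_add, eval_X, eval_C, zero_add,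
        Ideal.span_singleton_pow, Ideal.mem_span_singleton]
      rw [eval_one_cyclotomic_prime_pow]
      intro hdvd
      have h2 := (pow_dvd_pow_iff (PadicInt.prime_p (p := p)).ne_zero
        (PadicInt.prime_p (p := p)).not_isUnit (n := 2) (m := 1)).1 (by simpa using hdvd)
      omega
    have hfirr : Irreducible f := by
      refine hEis.irreducible hprime hfm.isPrimitive ?_
      rw [hf, natDegree_comp, natDegree_X_add_C, mul_one, natDegree_cyclotomic]
      exact Nat.totient_pos.2 (pow_pos hp.out.pos _)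
    have h3 : f = algEquivAevalXAddC (1 : ℤ_[p]) (cyclotomic (p ^ (n + 1)) ℤ_[p]) := by
      rw [hf, algEquivAevalXAddC_apply, comp_eq_aeval]
    rw [h3] at hfirr
    exact (MulEquiv.irreducible_iff _).1 hfirr
  have h2 := (hmonic.irreducible_iff_irreducible_map_fraction_map (K := ℚ_[p])).1 h1
  rwa [map_cyclotomic] at h2

/-- linear relations between powers of a primitive `p^(m+1)`-th root of unity -/
theorem coeff_eq_of_sum_eq_zero (p : ℕ) [hp : Fact p.Prime] (m : ℕ)
    {L : Type*} [Field L] [Algebra ℚ_[p] L] (ζ : L) (hζ : IsPrimitiveRoot ζ (p ^ (m + 1)))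
    (c : ℕ → ℚ_[p]) (hsum : ∑ k ∈ Finset.range (p ^ (m + 1)), algebraMap ℚ_[p] L (c k) * ζ ^ k = 0)
    (i : ℕ) (hi : i < p ^ m) (j : ℕ) (hj : j < p) : c (i + j * p ^ m) = c i := by
  set P : ℚ_[p][X] := ∑ k ∈ Finset.range (p ^ (m + 1)), C (c k) * X ^ k with hP
  have hPζ : aeval ζ P = 0 := by
    rw [hP, map_sum, ← hsum]
    refine Finset.sum_congr rfl fun k _ => ?_
    simp
  have hmin : minpoly ℚ_[p] ζ = cyclotomic (p ^ (m + 1)) ℚ_[p] :=
    (hζ.minpoly_eq_cyclotomic_of_irreducible (irreducible_cyclotomic_padic p m)).symm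
  have hdvd : cyclotomic (p ^ (m + 1)) ℚ_[p] ∣ P := by
    rw [← hmin]
    exact minpoly.dvd _ _ hPζ
  obtain ⟨R, hR⟩ := hdvd
  have hPcoeff : ∀ k, k < p ^ (m + 1) → P.coeff k = c k := by
    intro k hk
    rw [hP, finsetSum_coeff]
    simp only [coeff_C_mul, coeff_X_pow]
    simp [hk]
  have hPdeg : P.natDegree < p ^ (m + 1) := by
    by_cases h0 : P = 0
    · rw [h0, natDegree_zero]; exact pow_pos hp.out.pos _
    · rw [natDegree_lt_iff_degree_lt h0, hP]
      refine (degree_sum_le _ _).trans_lt ?_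
      rw [Finset.sup_lt_iff (WithBot.bot_lt_coe _)]
      intro k hk
      refine (degree_C_mul_X_pow_le _ _).trans_lt ?_
      exact_mod_cast Finset.mem_range.1 hk
  -- degree of R
  have hRdeg : ∀ k, p ^ m ≤ k → R.coeff k = 0 := by
    intro k hk
    by_cases hR0 : R = 0
    · rw [hR0, coeff_zero]
    · have hc0 : cyclotomic (p ^ (m + 1)) ℚ_[p] ≠ 0 := cyclotomic_ne_zero _ _
      have h1 : P.natDegree = (p ^ (m + 1)).totient + R.natDegree := by
        rw [hR, natDegree_mul hc0 hR0, natDegree_cyclotomic]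
      rw [Nat.totient_prime_pow_succ hp.out] at h1
      apply coeff_eq_zero_of_natDegree_lt
      have h2 : p ^ m * (p - 1) + p ^ m = p ^ (m + 1) := by
        have := hp.out.pos
        obtain ⟨r, rfl⟩ : ∃ r, p = r + 1 := ⟨p - 1, by omega⟩
        rw [Nat.add_sub_cancel]
        ring
      omega
  have hcyc : cyclotomic (p ^ (m + 1)) ℚ_[p] = ∑ j ∈ Finset.range p, (X ^ p ^ m) ^ j :=
    cyclotomic_prime_pow_eq_geom_sum hp.out
  have key : ∀ j, j < p → P.coeff (i + j * p ^ m) = R.coeff i := by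
    intro j hj
    rw [hR, hcyc, Finset.sum_mul, finsetSum_coeff]
    rw [Finset.sum_eq_single_of_mem j (Finset.mem_range.2 hj)]
    · rw [← pow_mul, mul_comm (p ^ m) j, coeff_X_pow_mul]
    · intro b _ hbj
      rw [← pow_mul, coeff_X_pow_mul']
      split_ifs with hle
      · apply hRdeg
        -- `p^m * b ≤ i + j p^m`, `b ≠ j` so `b < j`
        have hb : b < j := by
          by_contra hcon
          have h3 : j + 1 ≤ b := by omega
          have h4 : p ^ m * (j + 1) ≤ p ^ m * b := Nat.mul_le_mul_left _ h3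
          have h5 : p ^ m * (j + 1) = j * p ^ m + p ^ m := by ring
          omega
        have h6 : p ^ m * (b + 1) ≤ p ^ m * j := Nat.mul_le_mul_left _ hb
        have h7 : p ^ m * (b + 1) = p ^ m * b + p ^ m := by ring
        have h8 : p ^ m * j = j * p ^ m := by ring
        omega
      · rfl
  have hlt : ∀ j, j < p → i + j * p ^ m < p ^ (m + 1) := by
    intro j hj
    have h1 : (j + 1) * p ^ m ≤ p * p ^ m := Nat.mul_le_mul_right _ hj
    have h2 : (j + 1) * p ^ m = j * p ^ m + p ^ m := by ring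
    have h3 : p ^ (m + 1) = p * p ^ m := by ring
    omega
  have e1 := key j hj
  have e2 := key 0 hp.out.pos
  rw [zero_mul, add_zero] at e2
  rw [hPcoeff _ (hlt j hj)] at e1
  rw [hPcoeff _ (by simpa using hlt 0 hp.out.pos)] at e2
  rw [e1, e2]

/-- the bound at a fixed level -/
theorem totient_le_finrank (p : ℕ) [hp : Fact p.Prime] (m : ℕ) (hm : 0 < m)
    (N : ℕ) (hN : N = p ^ (m + 1))
    {L : Type*} [Field L] [Algebra ℚ_[p] L] (ζ : L) (hζ : IsPrimitiveRoot ζ N)
    {X : Type*} [Fintype X] (y : X → ZMod N) (x₀ : X) (hx₀ : IsUnit (y x₀))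
    (φ : ZMod N →+* ZMod (p ^ m)) (hφval : ∀ z : ZMod N, φ z = (z.val : ZMod (p ^ m)))
    (hsep : ∀ x, φ (y x) = φ (y x₀) → y x = y x₀) :
    N.totient ≤ (Fintype.card X * p) *
      Module.finrank ℚ_[p] (IntermediateField.adjoin ℚ_[p] {∑ x, ζ ^ (y x).val}) := by
  classical
  have hppos := hp.out.pos
  have hp2 := hp.out.two_le
  have hNpos : 0 < N := by rw [hN]; exact pow_pos hppos _
  have : NeZero N := ⟨hNpos.ne'⟩
  have : NeZero (p ^ m) := ⟨(pow_pos hppos _).ne'⟩
  have hirr : Irreducible (cyclotomic N ℚ_[p]) := by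
    rw [hN]; exact irreducible_cyclotomic_padic p m
  set A : (ZMod N)ˣ → L := fun u => ∑ x, ζ ^ ((u : ZMod N) * y x).val with hA
  set a : L := ∑ x, ζ ^ (y x).val with ha
  set Q : ℚ_[p][X] := ∑ x, Polynomial.X ^ (y x).val with hQ
  have hζint : IsIntegral ℚ_[p] ζ := hζ.isIntegral hNpos |>.tower_top
  have haint : IsIntegral ℚ_[p] a := by
    rw [ha]
    exact IsIntegral.sum _ fun x _ => hζint.pow _
  have hQζ : ∀ η : L, aeval η Q = ∑ x, η ^ (y x).val := by
    intro η
    rw [hQ, map_sum]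
    exact Finset.sum_congr rfl fun x _ => by rw [map_pow, aeval_X]
  have hmin : minpoly ℚ_[p] ζ = cyclotomic N ℚ_[p] :=
    (hζ.minpoly_eq_cyclotomic_of_irreducible hirr).symm
  have hζmod : ∀ k : ℕ, ζ ^ (k % N) = ζ ^ k := by
    intro k
    conv_rhs => rw [← Nat.mod_add_div k N]
    rw [pow_add, pow_mul, hζ.pow_eq_one, one_pow, mul_one]
  have hAeq : ∀ u : (ZMod N)ˣ, A u = aeval (ζ ^ (u : ZMod N).val) Q := by
    intro u
    rw [hQζ, hA]
    refine Finset.sum_congr rfl fun x _ => ?_
    rw [ZMod.val_mul, hζmod, pow_mul]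
  have hroot : ∀ u : (ZMod N)ˣ, aeval (A u) (minpoly ℚ_[p] a) = 0 := by
    intro u
    have h1 : aeval ζ ((minpoly ℚ_[p] a).comp Q) = 0 := by
      rw [aeval_comp, hQζ, ← ha]
      exact minpoly.aeval _ _
    have h2 : cyclotomic N ℚ_[p] ∣ (minpoly ℚ_[p] a).comp Q := by
      rw [← hmin]
      exact minpoly.dvd _ _ h1
    have h3 : IsPrimitiveRoot (ζ ^ (u : ZMod N).val) N :=
      hζ.pow_of_coprime _ (ZMod.val_coe_unit_coprime u)
    have h4 : aeval (ζ ^ (u : ZMod N).val) (cyclotomic N ℚ_[p]) = 0 := by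
      have := h3.minpoly_eq_cyclotomic_of_irreducible hirr
      rw [this]
      exact minpoly.aeval _ _
    obtain ⟨R, hR⟩ := h2
    have h5 : aeval (ζ ^ (u : ZMod N).val) ((minpoly ℚ_[p] a).comp Q) = 0 := by
      rw [hR, map_mul, h4, zero_mul]
    rw [aeval_comp, ← hAeq] at h5
    exact h5
  have himage : (Finset.univ.image A).card ≤ (minpoly ℚ_[p] a).natDegree := by
    have h0 : (minpoly ℚ_[p] a).map (algebraMap ℚ_[p] L) ≠ 0 :=
      (Polynomial.map_ne_zero_iff (algebraMap ℚ_[p] L).injective).2 (minpoly.ne_zero haint)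
    have h1 : Finset.univ.image A ⊆
        ((minpoly ℚ_[p] a).map (algebraMap ℚ_[p] L)).roots.toFinset := by
      intro z hz
      obtain ⟨u, _, rfl⟩ := Finset.mem_image.1 hz
      rw [Multiset.mem_toFinset, mem_roots h0, IsRoot.def, eval_map_algebraMap]
      exact hroot u
    calc (Finset.univ.image A).card ≤ _ := Finset.card_le_card h1
      _ ≤ Multiset.card ((minpoly ℚ_[p] a).map (algebraMap ℚ_[p] L)).roots :=
          Multiset.toFinset_card_le _
      _ ≤ ((minpoly ℚ_[p] a).map (algebraMap ℚ_[p] L)).natDegree := card_roots' _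
      _ = _ := natDegree_map _
  -- the key existence
  have hkey : ∀ u v : (ZMod N)ˣ, A v = A u → ∃ q : X × Fin p,
      ((v : ZMod N) * y q.1).val = ((u : ZMod N) * y x₀).val % p ^ m + q.2 * p ^ m := by
    intro u v huv
    by_contra hcon
    push Not at hcon
    set k0 := ((u : ZMod N) * y x₀).val with hk0
    set i := k0 % p ^ m with hi
    have hilt : i < p ^ m := Nat.mod_lt _ (pow_pos hppos _)
    set j0 := k0 / p ^ m with hj0
    have hj0lt : j0 < p := by
      rw [hj0, Nat.div_lt_iff_lt_mul (pow_pos hppos _)]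
      have := ZMod.val_lt ((u : ZMod N) * y x₀)
      rw [← hk0, hN, pow_succ] at this
      rwa [mul_comm]
    have hk0ij : k0 = i + j0 * p ^ m := by
      rw [hi, hj0, mul_comm]
      exact (Nat.mod_add_div _ _).symm
    set cnt : (ZMod N)ˣ → ℕ → ℕ :=
      fun w k => (Finset.univ.filter fun x => ((w : ZMod N) * y x).val = k).card with hcnt
    set c : ℕ → ℚ_[p] := fun k => (cnt v k : ℚ_[p]) - cnt u k with hc
    have hAcnt : ∀ w : (ZMod N)ˣ,
        A w = ∑ k ∈ Finset.range N, (cnt w k : L) * ζ ^ k := by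
      intro w
      rw [hA]
      beta_reduce
      rw [← Finset.sum_fiberwise_of_maps_to (s := Finset.univ) (t := Finset.range N)
        (g := fun x => ((w : ZMod N) * y x).val)]
      · refine Finset.sum_congr rfl fun k _ => ?_
        rw [Finset.sum_congr rfl (g := fun _ => ζ ^ k)]
        · rw [Finset.sum_const, nsmul_eq_mul]
        · intro x hx
          rw [(Finset.mem_filter.1 hx).2]
      · intro x _
        exact Finset.mem_range.2 (ZMod.val_lt _)
    have hsum : ∑ k ∈ Finset.range N, algebraMap ℚ_[p] L (c k) * ζ ^ k = 0 := by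
      have h1 : A v - A u = 0 := sub_eq_zero.2 huv
      rw [hAcnt, hAcnt, ← Finset.sum_sub_distrib] at h1
      rw [← h1]
      refine Finset.sum_congr rfl fun k _ => ?_
      rw [hc]
      simp only [map_sub, map_natCast]
      ring
    have hcc := coeff_eq_of_sum_eq_zero p m ζ (hN ▸ hζ) c (by rw [← hN]; exact hsum) i hilt
    -- another index
    obtain ⟨j1, hj1, hj10⟩ : ∃ j1, j1 < p ∧ j1 ≠ j0 := by
      by_cases h : j0 = 0
      · exact ⟨1, by omega, by omega⟩
      · exact ⟨0, by omega, by omega⟩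
    have hv0 : ∀ j, j < p → cnt v (i + j * p ^ m) = 0 := by
      intro j hj
      rw [hcnt]
      simp only [Finset.card_eq_zero, Finset.filter_eq_empty_iff]
      intro x _
      exact hcon (x, ⟨j, hj⟩)
    have hu0 : 0 < cnt u (i + j0 * p ^ m) := by
      rw [hcnt]
      refine Finset.card_pos.2 ⟨x₀, ?_⟩
      rw [Finset.mem_filter]
      exact ⟨Finset.mem_univ _, by rw [← hk0, hk0ij]⟩
    have hu1 : cnt u (i + j1 * p ^ m) = cnt u (i + j0 * p ^ m) := by
      have e0 := hcc j0 hj0lt
      have e1 := hcc j1 hj1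
      rw [← e0] at e1
      rw [hc] at e1
      simp only [hv0 _ hj0lt, hv0 _ hj1, Nat.cast_zero, zero_sub, neg_inj, Nat.cast_inj] at e1
      exact e1
    have hu2 : 0 < cnt u (i + j1 * p ^ m) := by omega
    obtain ⟨x, hx⟩ := Finset.card_pos.1 hu2
    have hx' : ((u : ZMod N) * y x).val = i + j1 * p ^ m := (Finset.mem_filter.1 hx).2
    have h1 : φ ((u : ZMod N) * y x) = φ ((u : ZMod N) * y x₀) := by
      rw [hφval, hφval, hx', ← hk0, hk0ij]
      push_cast
      have : ((p : ZMod (p ^ m)) ^ m) = 0 := by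
        rw [← Nat.cast_pow, ZMod.natCast_self]
      rw [this, mul_zero, mul_zero]
    rw [map_mul, map_mul] at h1
    have h2 : IsUnit (φ (u : ZMod N)) := u.isUnit.map φ
    have h3 := h2.mul_left_cancel h1
    have h4 := hsep x h3
    rw [h4, ← hk0, hk0ij] at hx'
    have h5 : j0 * p ^ m = j1 * p ^ m := by omega
    exact hj10 (Nat.eq_of_mul_eq_mul_right (pow_pos hppos _) h5).symm
  have hfiber : ∀ z ∈ Finset.univ.image A,
      (Finset.univ.filter fun v => A v = z).card ≤ Fintype.card X * p := by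
    intro z hz
    obtain ⟨u, _, rfl⟩ := Finset.mem_image.1 hz
    have h1 : ∀ v : (ZMod N)ˣ, ∃ q : X × Fin p, A v = A u →
        ((v : ZMod N) * y q.1).val = ((u : ZMod N) * y x₀).val % p ^ m + q.2 * p ^ m := by
      intro v
      by_cases h : A v = A u
      · obtain ⟨q, hq⟩ := hkey u v h
        exact ⟨q, fun _ => hq⟩
      · exact ⟨(x₀, ⟨0, hppos⟩), fun h' => absurd h' h⟩
    choose q hq using h1
    have hcard : Fintype.card X * p = (Finset.univ : Finset (X × Fin p)).card := by
      rw [Finset.card_univ, Fintype.card_prod, Fintype.card_fin]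
    rw [hcard]
    refine Finset.card_le_card_of_injOn q (fun v _ => Finset.mem_univ _) ?_
    intro v hv v' hv' hqq
    have e1 := hq v (Finset.mem_filter.1 (Finset.mem_coe.1 hv)).2
    have e2 := hq v' (Finset.mem_filter.1 (Finset.mem_coe.1 hv')).2
    rw [← hqq] at e2
    have e3 : (v : ZMod N) * y (q v).1 = (v' : ZMod N) * y (q v).1 :=
      ZMod.val_injective N (e1.trans e2.symm)
    have hunit : IsUnit (y (q v).1) := by
      have h2 : IsUnit ((u : ZMod N) * y x₀) := u.isUnit.mul hx₀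
      have h3 : (((u : ZMod N) * y x₀).val).Coprime N := by
        rw [← ZMod.isUnit_iff_coprime, ZMod.natCast_zmod_val]
        exact h2
      have h4 : (((u : ZMod N) * y x₀).val).Coprime p :=
        Nat.Coprime.coprime_dvd_right (hN ▸ dvd_pow_self p (Nat.succ_ne_zero m)) h3
      have h5 : (((v : ZMod N) * y (q v).1).val).Coprime p := by
        rw [e1]
        obtain ⟨m', rfl⟩ : ∃ m', m = m' + 1 := ⟨m - 1, by omega⟩
        have h6 : ((q v).2 : ℕ) * p ^ (m' + 1) = p * ((q v).2 * p ^ m') := by ring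
        rw [h6, Nat.coprime_add_mul_left_left]
        rw [← Nat.mod_add_div (((u : ZMod N) * y x₀).val) (p ^ (m' + 1))] at h4
        have h7 : p ^ (m' + 1) * (((u : ZMod N) * y x₀).val / p ^ (m' + 1)) =
            p * (p ^ m' * (((u : ZMod N) * y x₀).val / p ^ (m' + 1))) := by ring
        rw [h7, Nat.coprime_add_mul_left_left] at h4
        exact h4
      have h8 : IsUnit ((v : ZMod N) * y (q v).1) := by
        have h9 : (((v : ZMod N) * y (q v).1).val).Coprime N := by
          have h10 := Nat.Coprime.pow_right (m + 1) h5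
          rwa [← hN] at h10
        rw [← ZMod.isUnit_iff_coprime, ZMod.natCast_zmod_val] at h9
        exact h9
      exact isUnit_of_mul_isUnit_right h8
    exact Units.ext (hunit.mul_right_cancel e3)
  have hfinal : (Finset.univ : Finset (ZMod N)ˣ).card ≤
      (Fintype.card X * p) * (Finset.univ.image A).card :=
    Finset.card_le_mul_card_image _ _ hfiber
  rw [Finset.card_univ, ZMod.card_units_eq_totient] at hfinal
  rw [IntermediateField.adjoin.finrank haint]
  exact hfinal.trans (Nat.mul_le_mul_left _ himage)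

/-- cyclotomic lower bound -/
theorem exists_lower_bound (p : ℕ) [Fact p.Prime] {X : Type*} [Fintype X]
    (y : ∀ n : ℕ, X → ZMod (p ^ n))
    (hy : ∀ n x, ZMod.castHom (pow_dvd_pow p (Nat.le_succ n)) (ZMod (p ^ n)) (y (n + 1) x) = y n x)
    (x₀ : X) (hx₀ : y 1 x₀ ≠ 0)
    (ζ : ℕ → AlgebraicClosure ℚ_[p]) (hζ : ∀ n, IsPrimitiveRoot (ζ n) (p ^ n)) :
    ∃ c : ℝ, 0 < c ∧ ∀ᶠ n : ℕ in Filter.atTop,
      c * (p : ℝ) ^ n ≤ Module.finrank ℚ_[p]
        (IntermediateField.adjoin ℚ_[p] {∑ x, ζ n ^ (y n x).val}) := by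
  classical
  have hp : p.Prime := Fact.out
  have hppos := hp.pos
  have hp2 := hp.two_le
  -- separation
  have hsep : ∃ M : ℕ, ∀ n, M ≤ n → ∀ x, y n x = y n x₀ → y (n + 1) x = y (n + 1) x₀ := by
    have hx : ∀ x, ∃ M : ℕ, ∀ n, M ≤ n → y n x = y n x₀ → y (n + 1) x = y (n + 1) x₀ := by
      intro x
      by_cases h : ∀ n, y n x = y n x₀
      · exact ⟨0, fun n _ _ => h _⟩
      · push Not at h
        obtain ⟨M, hM⟩ := h
        refine ⟨M, fun n hn heq => ?_⟩
        exfalso
        have key : ∀ k, y (M + k) x ≠ y (M + k) x₀ := by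
          intro k
          induction k with
          | zero => exact hM
          | succ k ih =>
            intro hk
            apply ih
            rw [← hy (M + k) x, ← hy (M + k) x₀]
            rw [← add_assoc] at hk
            rw [hk]
        obtain ⟨k, rfl⟩ := Nat.exists_eq_add_of_le hn
        exact key k heq
    choose M hM using hx
    refine ⟨Finset.univ.sup M, fun n hn x => ?_⟩
    exact hM x n ((Finset.le_sup (Finset.mem_univ x)).trans hn)
  obtain ⟨M, hM⟩ := hsep
  have hval : ∀ m (z : ZMod (p ^ (m + 1))),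
      ZMod.castHom (pow_dvd_pow p (Nat.le_succ m)) (ZMod (p ^ m)) z = (z.val : ZMod (p ^ m)) := by
    intro m z
    have : NeZero (p ^ (m + 1)) := ⟨(pow_pos hppos _).ne'⟩
    rw [ZMod.castHom_apply, ZMod.cast_eq_val]
  -- units
  have hunit : ∀ m, IsUnit (y (m + 1) x₀) := by
    have hcop : ∀ m, ((y (m + 1) x₀).val).Coprime p := by
      intro m
      induction m with
      | zero =>
        have : NeZero (p ^ (0 + 1)) := ⟨(pow_pos hppos _).ne'⟩
        rw [Nat.coprime_comm, Nat.Prime.coprime_iff_not_dvd hp]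
        intro hdvd
        have h1 : (y (0 + 1) x₀).val < p := by
          have := ZMod.val_lt (y (0 + 1) x₀)
          simpa using this
        have h2 := Nat.eq_zero_of_dvd_of_lt hdvd h1
        exact hx₀ ((ZMod.val_eq_zero _).1 h2)
      | succ m ih =>
        have e1 := hy (m + 1) x₀
        rw [hval] at e1
        rw [Nat.coprime_comm, Nat.Prime.coprime_iff_not_dvd hp] at ih ⊢
        intro hdvd
        apply ih
        have : NeZero (p ^ (m + 1)) := ⟨(pow_pos hppos _).ne'⟩
        rw [← e1, ZMod.val_natCast]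
        rw [Nat.dvd_mod_iff (dvd_pow_self p (by omega))]
        exact hdvd
    intro m
    have : NeZero (p ^ (m + 1)) := ⟨(pow_pos hppos _).ne'⟩
    have h9 := Nat.Coprime.pow_right (m + 1) (hcop m)
    rw [← ZMod.isUnit_iff_coprime, ZMod.natCast_zmod_val] at h9
    exact h9
  have hXpos : 0 < Fintype.card X := Fintype.card_pos_iff.2 ⟨x₀⟩
  have hcardR : (0 : ℝ) < Fintype.card X := by exact_mod_cast hXpos
  have hpR : (0 : ℝ) < p := by exact_mod_cast hppos
  have hp1R : (0 : ℝ) < (p : ℝ) - 1 := by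
    have : (2 : ℝ) ≤ p := by exact_mod_cast hp2
    linarith
  refine ⟨((p : ℝ) - 1) / (p * (Fintype.card X * p)), by positivity, ?_⟩
  filter_upwards [Filter.eventually_ge_atTop (max M 1 + 1)] with n hn
  obtain ⟨m, rfl⟩ : ∃ m, n = m + 1 := ⟨n - 1, by omega⟩
  have hmM : M ≤ m := by
    have := le_max_left M 1
    omega
  have hm1 : 0 < m := by
    have := le_max_right M 1
    omega
  have hmain := totient_le_finrank p m hm1 (p ^ (m + 1)) rfl (ζ (m + 1)) (hζ (m + 1))
    (y (m + 1)) x₀ (hunit m) (ZMod.castHom (pow_dvd_pow p (Nat.le_succ m)) (ZMod (p ^ m)))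
    (hval m) (fun x hx => by
      rw [hy, hy] at hx
      exact hM m hmM x hx)
  rw [Nat.totient_prime_pow_succ hp] at hmain
  set F := Module.finrank ℚ_[p]
    (IntermediateField.adjoin ℚ_[p] {∑ x, ζ (m + 1) ^ (y (m + 1) x).val}) with hF
  have hmainR : (p : ℝ) ^ m * (p - 1) ≤ (Fintype.card X * p) * F := by
    have h1 : ((p ^ m * (p - 1) : ℕ) : ℝ) ≤ ((Fintype.card X * p * F : ℕ) : ℝ) := by
      exact_mod_cast hmain
    push_cast [Nat.cast_sub (show 1 ≤ p by omega)] at h1
    exact h1
  have h2 : ((p : ℝ) - 1) / (p * (Fintype.card X * p)) * (p : ℝ) ^ (m + 1) =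
      ((p : ℝ) ^ m * (p - 1)) / (Fintype.card X * p) := by
    field_simp
    ring
  rw [h2, div_le_iff₀ (by positivity)]
  linarith

end Pool.Agent.helper90.Zp
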