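import Pool.Agent.helper86.Zp.Const
import Pool.Agent.helper86.Zp.Count

/-!
F. K. Schmidt's theorem: a function field over a finite field has a divisor of degree one.
-/

open scoped Polynomial WithZero

set_option linter.unusedSectionVars false

namespace Pool.Agent.helper90.Zp

section

variable {k K L : Type*} [Field k] [Finite k] [Field K] [Field L] [Algebra k K] [Algebra k L]
  [IsFunctionField k K] [IsFunctionField k L]

/-- two disjoint degree preserving sections give a lower bound for the number of divisors -/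
theorem numEff_conv_le (w1 w2 : Place k K → Place k L) (h1 : Function.Injective w1)
    (h2 : Function.Injective w2) (h12 : ∀ v v', w1 v ≠ w2 v') (hd1 : ∀ v, (w1 v).deg = v.deg)
    (hd2 : ∀ v, (w2 v).deg = v.deg) (d : ℕ) :
    ∑ ij ∈ Finset.HasAntidiagonal.antidiagonal d, numEff k K ij.1 * numEff k K ij.2 ≤ numEff k L d := by
  classical
  have hfin := finite_effDiv (k := k) (F := K)
  have hfinL := finite_effDiv (k := k) (F := L)
  set A : ℕ → Type _ := fun d => {D : Place k K →₀ ℕ // (D.sum fun v m => m * v.deg) = d} with hA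
  have hc : ∑ ij ∈ Finset.HasAntidiagonal.antidiagonal d, numEff k K ij.1 * numEff k K ij.2 =
      Nat.card (Σ ij : Finset.HasAntidiagonal.antidiagonal d, A ij.1.1 × A ij.1.2) := by
    rw [Nat.card_sigma, ← Finset.sum_coe_sort]
    apply Finset.sum_congr rfl
    intro ij _
    rw [Nat.card_prod]
    rfl
  rw [hc]
  apply Nat.card_le_card_of_injective
    (fun x => (⟨x.2.1.1.mapDomain w1 + x.2.2.1.mapDomain w2, by
      rw [Finsupp.sum_add_index' (by simp) (by intro a b c; ring),
        Finsupp.sum_mapDomain_index (by simp) (by intro a b c; ring),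
        Finsupp.sum_mapDomain_index (by simp) (by intro a b c; ring)]
      simp only [hd1, hd2]
      rw [x.2.1.2, x.2.2.2]
      exact Finset.HasAntidiagonal.mem_antidiagonal.mp x.1.2⟩ :
      {D : Place k L →₀ ℕ // (D.sum fun v m => m * v.deg) = d}))
  rintro ⟨⟨⟨i, j⟩, hij⟩, ⟨⟨D1, hD1⟩, ⟨D2, hD2⟩⟩⟩ ⟨⟨⟨i', j'⟩, hij'⟩, ⟨⟨E1, hE1⟩, ⟨E2, hE2⟩⟩⟩ h
  have h' : D1.mapDomain w1 + D2.mapDomain w2 = E1.mapDomain w1 + E2.mapDomain w2 :=
    congrArg Subtype.val h
  have hDE1 : D1 = E1 := by
    ext v
    have h3 := DFunLike.congr_fun h' (w1 v)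
    rw [Finsupp.add_apply, Finsupp.add_apply, Finsupp.mapDomain_apply h1,
      Finsupp.mapDomain_apply h1,
      Finsupp.mapDomain_of_notMem_range _ _ (by rintro ⟨v', hv'⟩; exact h12 v v' hv'.symm),
      Finsupp.mapDomain_of_notMem_range _ _ (by rintro ⟨v', hv'⟩; exact h12 v v' hv'.symm)] at h3
    simpa using h3
  have hDE2 : D2 = E2 := by
    ext v
    have h3 := DFunLike.congr_fun h' (w2 v)
    rw [Finsupp.add_apply, Finsupp.add_apply, Finsupp.mapDomain_apply h2,
      Finsupp.mapDomain_apply h2,
      Finsupp.mapDomain_of_notMem_range _ _ (by rintro ⟨v', hv'⟩; exact h12 v' v hv'),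
      Finsupp.mapDomain_of_notMem_range _ _ (by rintro ⟨v', hv'⟩; exact h12 v' v hv')] at h3
    simpa using h3
  clear h h'
  subst hDE1 hDE2
  have hii : i = i' := hD1.symm.trans hE1
  have hjj : j = j' := hD2.symm.trans hE2
  subst hii hjj
  rfl

theorem not_sections (w1 w2 : Place k K → Place k L) (h1 : Function.Injective w1)
    (h2 : Function.Injective w2) (h12 : ∀ v v', w1 v ≠ w2 v') (hd1 : ∀ v, (w1 v).deg = v.deg)
    (hd2 : ∀ v, (w2 v).deg = v.deg) : False := by
  classical
  obtain ⟨C, hC⟩ := exists_numEff_le k L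
  obtain ⟨m, c, hm, hc⟩ := exists_le_numEff k K
  set q := Nat.card k with hq
  have hqpos : 0 < q := Nat.card_pos
  have key : ∀ N : ℕ, N + 1 ≤ c * c * C := by
    intro N
    have h3 : (N + 1) * q ^ (N * m) ≤ c * c * numEff k L (N * m) := by
      calc (N + 1) * q ^ (N * m) = ∑ ij ∈ Finset.HasAntidiagonal.antidiagonal N, q ^ (N * m) := by
            rw [Finset.sum_const, Finset.Nat.card_antidiagonal, smul_eq_mul]
        _ ≤ ∑ ij ∈ Finset.HasAntidiagonal.antidiagonal N, (c * c) * (numEff k K (ij.1 * m) *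
              numEff k K (ij.2 * m)) := by
            apply Finset.sum_le_sum
            intro ij hij
            have hs := Finset.HasAntidiagonal.mem_antidiagonal.mp hij
            calc q ^ (N * m) = q ^ (ij.1 * m) * q ^ (ij.2 * m) := by
                  rw [← pow_add, ← add_mul, hs]
              _ ≤ (c * numEff k K (ij.1 * m)) * (c * numEff k K (ij.2 * m)) :=
                  Nat.mul_le_mul (hc _) (hc _)
              _ = _ := by ring
        _ = (c * c) * ∑ ij ∈ Finset.HasAntidiagonal.antidiagonal N, (numEff k K (ij.1 * m) *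
              numEff k K (ij.2 * m)) := by rw [Finset.mul_sum]
        _ ≤ (c * c) * ∑ ij ∈ Finset.HasAntidiagonal.antidiagonal (N * m), (numEff k K ij.1 *
              numEff k K ij.2) := by
            gcongr
            have himg : (Finset.HasAntidiagonal.antidiagonal N).image (fun ij => (ij.1 * m, ij.2 * m)) ⊆
                Finset.HasAntidiagonal.antidiagonal (N * m) := by
              intro x hx
              obtain ⟨ij, hij, rfl⟩ := Finset.mem_image.mp hx
              rw [Finset.HasAntidiagonal.mem_antidiagonal] at hij ⊢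
              rw [← add_mul, hij]
            have hinj : Function.Injective (fun ij : ℕ × ℕ => (ij.1 * m, ij.2 * m)) := by
              rintro ⟨a, b⟩ ⟨a', b'⟩ h
              simp only [Prod.mk.injEq] at h ⊢
              exact ⟨Nat.eq_of_mul_eq_mul_right hm h.1, Nat.eq_of_mul_eq_mul_right hm h.2⟩
            calc _ = ∑ x ∈ (Finset.HasAntidiagonal.antidiagonal N).image (fun ij => (ij.1 * m, ij.2 * m)),
                  numEff k K x.1 * numEff k K x.2 := by
                  rw [Finset.sum_image hinj.injOn]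
              _ ≤ _ := Finset.sum_le_sum_of_subset himg
        _ ≤ c * c * numEff k L (N * m) := by
            gcongr
            exact numEff_conv_le w1 w2 h1 h2 h12 hd1 hd2 _
    have h4 : (N + 1) * q ^ (N * m) ≤ (c * c * C) * q ^ (N * m) := by
      calc _ ≤ _ := h3
        _ ≤ c * c * (C * q ^ (N * m)) := by gcongr; exact hC _
        _ = _ := by ring
    exact Nat.le_of_mul_le_mul_right h4 (pow_pos hqpos _)
  have := key (c * c * C)
  omega

end

section

variable (k F : Type*) [Field k] [Finite k] [Field F] [Algebra k F]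
    [IsFunctionField k F] [IsFullConstantField k F]

theorem not_dvd_deg {n : ℕ} (hn : 2 ≤ n) : ¬ ∀ v : Place k F, n ∣ v.deg := by
  intro hdvd
  have hn0 : n ≠ 0 := by omega
  have hgal := ConstExt.isGalois k F hn0
  have hff : IsFunctionField k (ConstExt k F n) :=
    IsFunctionField.of_finiteDimensional (K := F)
  obtain ⟨τ, hτ⟩ := ConstExt.exists_ne_one k F hn
  choose w1 hw1 using exists_below_eq (k := k) (K := F) (L := ConstExt k F n)
  have hgen := ConstExt.eq_one k F (n := n)
  have hinj1 : Function.Injective w1 := by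
    intro v v' h
    rw [← hw1 v, ← hw1 v', h]
  have hw2 : ∀ v, (conj τ (w1 v)).below F = v := fun v => by rw [conj_below, hw1]
  have hinj2 : Function.Injective (fun v => conj τ (w1 v)) := by
    intro v v' h
    have h' : conj τ (w1 v) = conj τ (w1 v') := h
    rw [← hw2 v, ← hw2 v', h']
  refine not_sections w1 (fun v => conj τ (w1 v)) hinj1 hinj2 ?_ ?_ ?_
  · intro v v' h
    have h3 : v = v' := by
      rw [← hw1 v, ← hw2 v', h]
    subst h3
    have h4 : conj (1 : ConstExt k F n ≃ₐ[F] ConstExt k F n) (w1 v) = conj τ (w1 v) := by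
      rw [conj_one]; exact h
    exact hτ (conj_injective hn0 hdvd hgen h4).symm
  · intro v
    rw [deg_eq_of_generated hn0 hdvd hgen, hw1]
  · intro v
    rw [deg_eq_of_generated hn0 hdvd hgen, hw2]

/-- F. K. Schmidt: there is a divisor of degree one. -/
theorem exists_degD_eq_one : ∃ D : Place k F →₀ ℤ, degD D = 1 := by
  classical
  let f : (Place k F →₀ ℤ) →+ ℤ :=
    { toFun := degD, map_zero' := degD_zero, map_add' := degD_add }
  obtain ⟨a, ha⟩ := Int.subgroup_cyclic f.range
  have hdvd : ∀ v : Place k F, a.natAbs ∣ v.deg := by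
    intro v
    have h1 : (v.deg : ℤ) ∈ f.range := ⟨Finsupp.single v 1, by
      change degD _ = _
      rw [degD_single, one_mul]⟩
    rw [ha, AddSubgroup.mem_closure_singleton] at h1
    obtain ⟨n, hn⟩ := h1
    have h2 : a ∣ (v.deg : ℤ) := ⟨n, by rw [← hn, smul_eq_mul, mul_comm]⟩
    exact Int.natAbs_dvd_natAbs.mpr h2
  have h0 : a.natAbs ≠ 0 := by
    intro h0
    obtain ⟨P⟩ := nonempty_place k F
    have h1 := hdvd P
    rw [h0, zero_dvd_iff] at h1
    exact P.deg_pos.ne' h1
  have h1 : a.natAbs = 1 := by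
    by_contra h1
    exact not_dvd_deg k F (n := a.natAbs) (by omega) hdvd
  have h2 : (1 : ℤ) ∈ f.range := by
    rw [ha, AddSubgroup.mem_closure_singleton]
    rcases Int.natAbs_eq a with h | h
    · exact ⟨1, by rw [h, h1]; rfl⟩
    · exact ⟨-1, by rw [h, h1]; rfl⟩
  obtain ⟨D, hD⟩ := h2
  exact ⟨D, hD⟩

end

end Pool.Agent.helper90.Zp
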