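import Mathlib

/-!
# Module D of MP_7758f8_nt, part 1: formal Euler products
-/

open scoped Polynomial

namespace Pool.Agent.helper90.Zp

/-- Generating series of the free commutative monoid on `X`, with degree `deg` and multiplicative
weight `c`: `∑_D c(D) s^{deg D} = ∏_x (1 - c(x) s^{deg x})⁻¹`. -/
noncomputable def eulerSeries {X R : Type*} [CommRing R] (deg : X → ℕ) (c : X → R) :
    PowerSeries R :=
  PowerSeries.mk fun d =>
    ∑ᶠ D : {D : X →₀ ℕ // (D.sum fun x m => m * deg x) = d}, D.1.prod fun x m => c x ^ m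

theorem finite_degree_eq {X : Type*} (deg : X → ℕ) (hdeg : ∀ x, 0 < deg x)
    (hfin : ∀ d, {x | deg x = d}.Finite) (d : ℕ) :
    {D : X →₀ ℕ | (D.sum fun x m => m * deg x) = d}.Finite := by
  classical
  -- the support lies in the finite set of `x` with `deg x ≤ d`
  have hS : {x | deg x ≤ d}.Finite := by
    have : {x | deg x ≤ d} = ⋃ e ∈ Finset.range (d + 1), {x | deg x = e} := by
      ext x
      simp
    rw [this]
    exact Set.Finite.biUnion (Finset.finite_toSet _) fun e _ => hfin e
  set S : Finset X := hS.toFinset with hSdef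
  have hfinset : ((Finset.pi S fun _ => Finset.range (d + 1) : Finset _) :
      Set ((x : X) → x ∈ S → ℕ)).Finite := Finset.finite_toSet _
  refine Set.Finite.of_finite_image (f := fun D : X →₀ ℕ => fun (x : X) (_ : x ∈ S) => D x)
    (hfinset.subset ?_) ?_
  · rintro _ ⟨D, hD, rfl⟩
    simp only [Finset.mem_coe, Finset.mem_pi, Finset.mem_range]
    intro x hx
    by_contra hcon
    push Not at hcon
    have hx0 : D x ≠ 0 := by omega
    have h1 : D x * deg x ≤ D.sum fun x m => m * deg x :=
      Finset.single_le_sum (f := fun x => D x * deg x) (fun _ _ => Nat.zero_le _)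
        (Finsupp.mem_support_iff.2 hx0)
    rw [Set.mem_ofPred_eq] at hD
    have h2 : D x ≤ D x * deg x := Nat.le_mul_of_pos_right _ (hdeg x)
    omega
  · intro D hD D' hD' h
    ext x
    by_cases hx : x ∈ S
    · exact congrFun (congrFun h x) hx
    · have hx' : d < deg x := by
        by_contra hcon
        exact hx (hS.mem_toFinset.2 (not_lt.1 hcon))
      have key : ∀ E : X →₀ ℕ, (E.sum fun x m => m * deg x) = d → E x = 0 := by
        intro E hE
        by_contra hx0
        have h1 : E x * deg x ≤ E.sum fun x m => m * deg x :=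
          Finset.single_le_sum (f := fun x => E x * deg x) (fun _ _ => Nat.zero_le _)
            (Finsupp.mem_support_iff.2 hx0)
        have h2 : deg x ≤ E x * deg x := Nat.le_mul_of_pos_left _ (Nat.pos_of_ne_zero hx0)
        omega
      rw [key D hD, key D' hD']

section aux

variable {X R : Type*} [CommRing R] (deg : X → ℕ) (c : X → R)

/-- degree of a divisor -/
def dg (D : X →₀ ℕ) : ℕ := D.sum fun x m => m * deg x

/-- weight of a divisor -/
def wt (D : X →₀ ℕ) : R := D.prod fun x m => c x ^ m

lemma dg_add (D E : X →₀ ℕ) : dg deg (D + E) = dg deg D + dg deg E :=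
  Finsupp.sum_add_index' (fun x => by simp) fun x m n => by ring

lemma wt_add (D E : X →₀ ℕ) : wt c (D + E) = wt c D * wt c E :=
  Finsupp.prod_add_index' (fun x => by simp) fun x m n => by ring

lemma dg_single (x : X) (m : ℕ) : dg deg (Finsupp.single x m) = m * deg x :=
  Finsupp.sum_single_index (by simp)

lemma wt_single (x : X) (m : ℕ) : wt c (Finsupp.single x m) = c x ^ m :=
  Finsupp.prod_single_index (by simp)

/-- divisors of degree `d` without component in `S` -/
def dvs (S : Set X) (d : ℕ) : Set (X →₀ ℕ) := {D | dg deg D = d ∧ ∀ x ∈ S, D x = 0}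

lemma dvs_finite (hdeg : ∀ x, 0 < deg x) (hfin : ∀ d, {x | deg x = d}.Finite) (S : Set X)
    (d : ℕ) : (dvs deg S d).Finite :=
  (finite_degree_eq deg hdeg hfin d).subset fun _ hD => hD.1

lemma finsum_dvs_insert (hdeg : ∀ x, 0 < deg x) (hfin : ∀ d, {x | deg x = d}.Finite) (S : Set X)
    (x₀ : X) (hx₀ : x₀ ∉ S) (d : ℕ) :
    ∑ᶠ D ∈ dvs deg S d, wt c D = ∑ᶠ D ∈ dvs deg (insert x₀ S) d, wt c D +
      if deg x₀ ≤ d then c x₀ * ∑ᶠ D ∈ dvs deg S (d - deg x₀), wt c D else 0 := by
  classical
  have hsplit : dvs deg S d = dvs deg (insert x₀ S) d ∪ {D ∈ dvs deg S d | D x₀ ≠ 0} := by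
    ext D
    constructor
    · intro hD
      by_cases h : D x₀ = 0
      · left
        refine ⟨hD.1, fun x hx => ?_⟩
        rcases Set.mem_insert_iff.1 hx with rfl | hx
        · exact h
        · exact hD.2 x hx
      · right
        exact ⟨hD, h⟩
    · rintro (hD | hD)
      · exact ⟨hD.1, fun x hx => hD.2 x (Set.mem_insert_of_mem _ hx)⟩
      · exact hD.1
  have hdisj : Disjoint (dvs deg (insert x₀ S) d) {D ∈ dvs deg S d | D x₀ ≠ 0} := by
    rw [Set.disjoint_left]
    intro D hD hD'
    exact hD'.2 (hD.2 x₀ (Set.mem_insert _ _))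
  have hfin1 := dvs_finite deg hdeg hfin (insert x₀ S) d
  have hfin2 : ({D ∈ dvs deg S d | D x₀ ≠ 0}).Finite :=
    (dvs_finite deg hdeg hfin S d).subset fun _ h => h.1
  conv_lhs => rw [hsplit]
  rw [finsum_mem_union hdisj hfin1 hfin2]
  congr 1
  split_ifs with hd
  · have himg : {D ∈ dvs deg S d | D x₀ ≠ 0} =
        (fun D => D + Finsupp.single x₀ 1) '' dvs deg S (d - deg x₀) := by
      ext D
      constructor
      · rintro ⟨hD, hD0⟩
        refine ⟨D - Finsupp.single x₀ 1, ⟨?_, fun x hx => ?_⟩, ?_⟩
        · have hle : Finsupp.single x₀ 1 ≤ D := by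
            rw [Finsupp.single_le_iff]
            omega
          have h1 := dg_add deg (D - Finsupp.single x₀ 1) (Finsupp.single x₀ 1)
          rw [tsub_add_cancel_of_le hle, dg_single, hD.1] at h1
          omega
        · rw [Finsupp.tsub_apply, hD.2 x hx, zero_tsub]
        · have hle : Finsupp.single x₀ 1 ≤ D := by
            rw [Finsupp.single_le_iff]
            omega
          exact tsub_add_cancel_of_le hle
      · rintro ⟨E, hE, rfl⟩
        refine ⟨⟨?_, fun x hx => ?_⟩, ?_⟩
        · rw [dg_add, dg_single, hE.1]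
          omega
        · have hne : x₀ ≠ x := fun h => hx₀ (h ▸ hx)
          simp [hE.2 x hx, hne]
        · simp
    rw [himg, finsum_mem_image (fun a _ b _ h => add_right_cancel h)]
    rw [mul_finsum_mem' _ _ (dvs_finite deg hdeg hfin S (d - deg x₀))]
    refine finsum_mem_congr rfl fun D _ => ?_
    rw [wt_add, wt_single, pow_one, mul_comm]
  · have hemp : {D ∈ dvs deg S d | D x₀ ≠ 0} = ∅ := by
      rw [Set.eq_empty_iff_forall_notMem]
      rintro D ⟨hD, hD0⟩
      have h1 : D x₀ * deg x₀ ≤ D.sum fun x m => m * deg x :=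
        Finset.single_le_sum (f := fun x => D x * deg x) (fun _ _ => Nat.zero_le _)
          (Finsupp.mem_support_iff.2 hD0)
      have h2 : deg x₀ ≤ D x₀ * deg x₀ := Nat.le_mul_of_pos_left _ (Nat.pos_of_ne_zero hD0)
      have h3 : (D.sum fun x m => m * deg x) = d := hD.1
      omega
    rw [hemp, finsum_mem_empty]

/-- the series with the factors in `S` removed, as a sum over divisors on `X` -/
noncomputable def eS (S : Set X) : PowerSeries R :=
  PowerSeries.mk fun d => ∑ᶠ D ∈ dvs deg S d, wt c D

lemma eS_insert (hdeg : ∀ x, 0 < deg x) (hfin : ∀ d, {x | deg x = d}.Finite) (S : Set X)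
    (x₀ : X) (hx₀ : x₀ ∉ S) :
    eS deg c (insert x₀ S) = eS deg c S * (1 - PowerSeries.C (c x₀) * PowerSeries.X ^ deg x₀) := by
  ext d
  rw [mul_sub, mul_one, map_sub, mul_left_comm, PowerSeries.coeff_C_mul,
    PowerSeries.coeff_mul_X_pow']
  simp only [eS, PowerSeries.coeff_mk]
  rw [finsum_dvs_insert deg c hdeg hfin S x₀ hx₀ d]
  split_ifs <;> ring

lemma eulerSeries_eq (d : ℕ) : PowerSeries.coeff d (eulerSeries deg c) =
    ∑ᶠ D ∈ {D : X →₀ ℕ | dg deg D = d}, wt c D := by
  simp only [eulerSeries, PowerSeries.coeff_mk]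
  exact finsum_subtype_eq_finsum_cond (f := wt c) (fun D => dg deg D = d)

lemma eS_empty : eS deg c ∅ = eulerSeries deg c := by
  ext d
  rw [eulerSeries_eq]
  simp only [eS, PowerSeries.coeff_mk]
  congr 1
  ext D
  simp [dvs]

lemma eS_compl (S : Set X) : eulerSeries (fun x : {x // x ∉ S} => deg x) (fun x => c x) =
    eS deg c S := by
  classical
  ext d
  rw [eulerSeries_eq]
  simp only [eS, PowerSeries.coeff_mk]
  set ι : {x // x ∉ S} ↪ X := Function.Embedding.subtype _ with hι
  have h1 : ∀ D : {x // x ∉ S} →₀ ℕ, dg deg (D.embDomain ι) = dg (fun x => deg x.1) D := by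
    intro D
    exact Finsupp.sum_embDomain
  have h2 : ∀ D : {x // x ∉ S} →₀ ℕ, wt c (D.embDomain ι) = wt (fun x => c x.1) D := by
    intro D
    exact Finsupp.prod_embDomain
  have himg : dvs deg S d = Finsupp.embDomain ι '' {D | dg (fun x => deg x.1) D = d} := by
    ext D
    constructor
    · rintro ⟨hD, hD0⟩
      refine ⟨D.comapDomain ι ι.injective.injOn, ?_, ?_⟩
      · rw [Set.mem_ofPred_eq, ← h1, Finsupp.embDomain_comapDomain]
        · exact hD
        · intro x hx
          have hx' : x ∉ S := fun h => (Finsupp.mem_support_iff.1 hx) (hD0 x h)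
          exact ⟨⟨x, hx'⟩, rfl⟩
      · rw [Finsupp.embDomain_comapDomain]
        intro x hx
        have hx' : x ∉ S := fun h => (Finsupp.mem_support_iff.1 hx) (hD0 x h)
        exact ⟨⟨x, hx'⟩, rfl⟩
    · rintro ⟨E, hE, rfl⟩
      refine ⟨(h1 E).trans hE, fun x hx => ?_⟩
      apply Finsupp.embDomain_of_notMem_range
      rintro ⟨y, rfl⟩
      exact y.2 hx
  rw [himg, finsum_mem_image (Finsupp.embDomain_injective ι).injOn]
  exact finsum_mem_congr rfl fun D _ => (h2 D).symm

lemma eS_finset (hdeg : ∀ x, 0 < deg x) (hfin : ∀ d, {x | deg x = d}.Finite) (S : Finset X) :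
    eS deg c S = eulerSeries deg c *
      ∏ x ∈ S, (1 - PowerSeries.C (c x) * PowerSeries.X ^ deg x) := by
  classical
  induction S using Finset.induction_on with
  | empty => simp [eS_empty]
  | insert a S ha ih =>
    rw [Finset.coe_insert, eS_insert deg c hdeg hfin _ a (by simpa using ha), ih,
      Finset.prod_insert ha]
    ring

end aux

/-- removing finitely many Euler factors -/
theorem eulerSeries_compl {X R : Type*} [CommRing R] (deg : X → ℕ) (c : X → R)
    (hdeg : ∀ x, 0 < deg x) (hfin : ∀ d, {x | deg x = d}.Finite) (S : Finset X) :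
    eulerSeries (fun x : {x // x ∉ S} => deg x) (fun x => c x) =
      eulerSeries deg c * ∏ x ∈ S, (1 - PowerSeries.C (c x) * PowerSeries.X ^ deg x) := by
  rw [← eS_finset deg c hdeg hfin S]
  exact eS_compl deg c (S : Set X)

/-- the truncated product formula -/
theorem coeff_eulerSeries_mul_prod {X R : Type*} [CommRing R] (deg : X → ℕ) (c : X → R)
    (hdeg : ∀ x, 0 < deg x) (hfin : ∀ d, {x | deg x = d}.Finite) (S : Finset X) (n : ℕ)
    (hS : ∀ x, deg x ≤ n → x ∈ S) (d : ℕ) (hd : d ≤ n) :
    PowerSeries.coeff d (eulerSeries deg c *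
      ∏ x ∈ S, (1 - PowerSeries.C (c x) * PowerSeries.X ^ deg x)) =
    PowerSeries.coeff d (1 : PowerSeries R) := by
  classical
  rw [← eS_finset deg c hdeg hfin S]
  simp only [eS, PowerSeries.coeff_mk, PowerSeries.coeff_one]
  have key : ∀ D ∈ dvs deg (S : Set X) d, D = 0 := by
    rintro D ⟨hD, hD0⟩
    ext x
    rw [Finsupp.zero_apply]
    by_cases hx : x ∈ S
    · exact hD0 x hx
    · by_contra hx0
      have h1 : D x * deg x ≤ D.sum fun x m => m * deg x :=
        Finset.single_le_sum (f := fun x => D x * deg x) (fun _ _ => Nat.zero_le _)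
          (Finsupp.mem_support_iff.2 hx0)
      have h2 : deg x ≤ D x * deg x := Nat.le_mul_of_pos_left _ (Nat.pos_of_ne_zero hx0)
      have h3 : (D.sum fun x m => m * deg x) = d := hD
      exact hx (hS x (by omega))
  split_ifs with h0
  · have : dvs deg (S : Set X) d = {0} := by
      ext D
      constructor
      · intro hD; exact key D hD
      · rintro rfl
        exact ⟨by simp [dg, h0], fun x _ => rfl⟩
    rw [this, finsum_mem_singleton]
    simp [wt]
  · have : dvs deg (S : Set X) d = ∅ := by
      rw [Set.eq_empty_iff_forall_notMem]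
      intro D hD
      have h1 := key D hD
      subst h1
      apply h0
      rw [← hD.1]
      simp [dg]
    rw [this, finsum_mem_empty]

/-- factorisation of the zeta function of a cover -/
theorem eulerSeries_fiber {X Y R ι : Type*} [CommRing R] [Fintype ι] (degX : X → ℕ) (degY : Y → ℕ)
    (hX : ∀ x, 0 < degX x) (hfinX : ∀ d, {x | degX x = d}.Finite)
    (π : Y → X) (f : X → ℕ) (hf : ∀ x, 0 < f x) (g : X → ℕ) (hg : ∀ x, 0 < g x)
    (hπ : ∀ x, Nat.card {y // π y = x} = g x) (hdeg : ∀ y, degY y = f (π y) * degX (π y))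
    (c : ι → X → R)
    (hc : ∀ x, ∏ i, (1 - PowerSeries.C (c i x) * PowerSeries.X : PowerSeries R) =
      (1 - PowerSeries.X ^ f x) ^ g x) :
    eulerSeries degY (fun _ => (1 : R)) = ∏ i, eulerSeries degX (c i) := by
  classical
  have hYpos : ∀ y, 0 < degY y := fun y => by
    rw [hdeg]; exact Nat.mul_pos (hf _) (hX _)
  have hfib : ∀ x, {y | π y = x}.Finite := by
    intro x
    have h1 : Nat.card {y // π y = x} ≠ 0 := by rw [hπ]; exact (hg x).ne'
    have h2 : Finite {y // π y = x} := Nat.finite_of_card_ne_zero h1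
    exact (Set.finite_coe_iff (s := {y | π y = x})).1 h2
  have hSX : ∀ n, {x | degX x ≤ n}.Finite := by
    intro n
    have : {x | degX x ≤ n} = ⋃ e ∈ Finset.range (n + 1), {x | degX x = e} := by
      ext x
      simp
    rw [this]
    exact Set.Finite.biUnion (Finset.finite_toSet _) fun e _ => hfinX e
  have hSY : ∀ n, {y | degX (π y) ≤ n}.Finite := by
    intro n
    have : {y | degX (π y) ≤ n} = ⋃ x ∈ {x | degX x ≤ n}, {y | π y = x} := by
      ext y
      simp
    rw [this]
    exact Set.Finite.biUnion (hSX n) fun x _ => hfib x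
  have hle : ∀ y, degX (π y) ≤ degY y := fun y => by
    rw [hdeg]; exact Nat.le_mul_of_pos_left _ (hf _)
  have hfinY : ∀ d, {y | degY y = d}.Finite := fun d =>
    (hSY d).subset fun y hy => (hle y).trans (le_of_eq hy)
  ext n
  set SX : Finset X := (hSX n).toFinset with hSXdef
  set SY : Finset Y := (hSY n).toFinset with hSYdef
  set A := eulerSeries degY (fun _ => (1 : R)) with hA
  set B := ∏ i, eulerSeries degX (c i) with hB
  set U : PowerSeries R :=
    ∏ y ∈ SY, (1 - PowerSeries.C (1 : R) * PowerSeries.X ^ degY y) with hU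
  set V : ι → PowerSeries R :=
    fun i => ∏ x ∈ SX, (1 - PowerSeries.C (c i x) * PowerSeries.X ^ degX x) with hV
  have hUV : U = ∏ i, V i := by
    rw [hV, Finset.prod_comm, hU]
    rw [← Finset.prod_fiberwise_of_maps_to (s := SY) (t := SX) (g := π)]
    · refine Finset.prod_congr rfl fun x hx => ?_
      have h1 : ∏ y ∈ SY with π y = x, (1 - PowerSeries.C (1 : R) * PowerSeries.X ^ degY y) =
          ∏ y ∈ SY with π y = x, (1 - PowerSeries.X ^ (f x * degX x) : PowerSeries R) := by
        refine Finset.prod_congr rfl fun y hy => ?_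
        rw [hdeg, (Finset.mem_filter.1 hy).2, map_one, one_mul]
      rw [h1, Finset.prod_const]
      have hcard : (SY.filter fun y => π y = x).card = g x := by
        rw [← hπ x, ← Nat.card_eq_finsetCard]
        refine Nat.card_congr (Equiv.subtypeEquivRight fun y => ?_)
        rw [Finset.mem_filter, hSYdef, Set.Finite.mem_toFinset]
        constructor
        · exact fun h => h.2
        · intro h
          refine ⟨?_, h⟩
          rw [Set.mem_ofPred_eq, h]
          exact (hSX n).mem_toFinset.1 hx
      rw [hcard]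
      have hpoly : (∏ i, (1 - Polynomial.C (c i x) * Polynomial.X) : R[X]) =
          (1 - Polynomial.X ^ f x) ^ g x := by
        apply Polynomial.coe_injective R
        have := hc x
        have h2 : ∀ q : R[X], (q : PowerSeries R) = Polynomial.coeToPowerSeries.ringHom q :=
          fun q => rfl
        rw [h2, h2]
        simp only [map_prod, map_sub, map_mul, map_pow, map_one,
          Polynomial.coeToPowerSeries.ringHom_apply, Polynomial.coe_C, Polynomial.coe_X]
        exact this
      have h3 := congrArg (Polynomial.aeval (PowerSeries.X ^ degX x : PowerSeries R)) hpoly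
      simp only [map_prod, map_sub, map_mul, map_pow, map_one, Polynomial.aeval_X,
        Polynomial.aeval_C] at h3
      rw [mul_comm (f x), pow_mul]
      exact h3.symm
    · intro y hy
      rw [hSXdef, Set.Finite.mem_toFinset]
      exact (hSY n).mem_toFinset.1 hy
  have hAU : PowerSeries.X ^ (n + 1) ∣ A * U - 1 := by
    rw [PowerSeries.X_pow_dvd_iff]
    intro m hm
    rw [map_sub, sub_eq_zero]
    refine coeff_eulerSeries_mul_prod degY _ hYpos hfinY SY n (fun y hy => ?_) m (by omega)
    rw [hSYdef, Set.Finite.mem_toFinset]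
    exact (hle y).trans hy
  have hBV : PowerSeries.X ^ (n + 1) ∣ B * U - 1 := by
    rw [hUV, hB, ← Finset.prod_mul_distrib]
    have h1 : ∀ i, PowerSeries.X ^ (n + 1) ∣ eulerSeries degX (c i) * V i - 1 := by
      intro i
      rw [PowerSeries.X_pow_dvd_iff]
      intro m hm
      rw [map_sub, sub_eq_zero]
      refine coeff_eulerSeries_mul_prod degX _ hX hfinX SX n (fun y hy => ?_) m (by omega)
      rw [hSXdef, Set.Finite.mem_toFinset]
      exact hy
    have h2 : ∀ s : Finset ι, PowerSeries.X ^ (n + 1) ∣
        ∏ i ∈ s, (eulerSeries degX (c i) * V i) - 1 := by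
      intro s
      induction s using Finset.induction_on with
      | empty => simp
      | insert a s ha ih =>
        rw [Finset.prod_insert ha]
        have h3 : eulerSeries degX (c a) * V a * ∏ i ∈ s, (eulerSeries degX (c i) * V i) - 1 =
            (eulerSeries degX (c a) * V a - 1) * ∏ i ∈ s, (eulerSeries degX (c i) * V i) +
            (∏ i ∈ s, (eulerSeries degX (c i) * V i) - 1) := by ring
        rw [h3]
        exact dvd_add (Dvd.dvd.mul_right (h1 a) _) ih
    exact h2 _
  have hAB : PowerSeries.X ^ (n + 1) ∣ A - B := by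
    have h1 : A - B = B * (A * U - 1) - A * (B * U - 1) := by ring
    rw [h1]
    exact dvd_sub (Dvd.dvd.mul_left hAU _) (Dvd.dvd.mul_left hBV _)
  rw [PowerSeries.X_pow_dvd_iff] at hAB
  have := hAB n (by omega)
  rw [map_sub, sub_eq_zero] at this
  exact this

/-- characters of a cyclic group: `∏_{i < N} (1 - ζ^{i a} T) = (1 - T^f)^{N / f}` where `f` is the
order of `a` in `ZMod N` -/
theorem prod_one_sub_zeta {R : Type*} [CommRing R] [IsDomain R] {N : ℕ} (hN : 0 < N) {ζ : R}
    (hζ : IsPrimitiveRoot ζ N) (a : ℕ) :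
    ∏ i ∈ Finset.range N, (1 - PowerSeries.C (ζ ^ (i * a)) * PowerSeries.X : PowerSeries R) =
      (1 - PowerSeries.X ^ (N / N.gcd a)) ^ (N.gcd a) := by
  classical
  set g := N.gcd a with hg
  have hgpos : 0 < g := Nat.gcd_pos_of_pos_left _ hN
  set f := N / g with hf
  have hNfg : N = f * g := (Nat.div_mul_cancel (Nat.gcd_dvd_left N a)).symm
  have hfpos : 0 < f := Nat.div_pos (Nat.gcd_le_left _ hN) hgpos
  set η : R := ζ ^ a with hη
  have hηprim : IsPrimitiveRoot η f := by
    rw [hη, hf, hg]
    by_cases ha : a = 0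
    · subst ha
      simp only [pow_zero, Nat.gcd_zero_right, Nat.div_self hN]
      exact IsPrimitiveRoot.one
    · have h1 := orderOf_pow' ζ ha
      rw [← hζ.eq_orderOf] at h1
      rw [← h1]
      exact IsPrimitiveRoot.orderOf _
  have hinner : ∏ i ∈ Finset.range f, (1 - PowerSeries.C (η ^ i) * PowerSeries.X : PowerSeries R) =
      1 - PowerSeries.X ^ f := by
    have hCη : IsPrimitiveRoot (PowerSeries.C η : PowerSeries R) f :=
      hηprim.map_of_injective PowerSeries.C_injective
    have h1 := hCη.pow_sub_pow_eq_prod_sub_mul (1 : PowerSeries R) PowerSeries.X hfpos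
    rw [one_pow] at h1
    rw [h1]
    have h2 : Polynomial.nthRootsFinset f (1 : PowerSeries R) =
        (Finset.range f).image (fun i => (PowerSeries.C η : PowerSeries R) ^ i) := by
      symm
      apply Finset.eq_of_subset_of_card_le
      · intro x hx
        obtain ⟨i, _, rfl⟩ := Finset.mem_image.1 hx
        rw [Polynomial.mem_nthRootsFinset hfpos, ← pow_mul, mul_comm, pow_mul, hCη.pow_eq_one,
          one_pow]
      · rw [hCη.card_nthRootsFinset, Finset.card_image_of_injOn hCη.injOn_pow, Finset.card_range]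
    rw [h2, Finset.prod_image (fun i hi j hj h => hCη.injOn_pow hi hj h)]
    refine Finset.prod_congr rfl fun i _ => ?_
    rw [map_pow]
  have houter : ∀ k : ℕ, ∏ i ∈ Finset.range (f * k),
      (1 - PowerSeries.C (η ^ i) * PowerSeries.X : PowerSeries R) = (1 - PowerSeries.X ^ f) ^ k := by
    intro k
    induction k with
    | zero => simp
    | succ k ih =>
      rw [Nat.mul_succ, Finset.prod_range_add, ih, pow_succ]
      congr 1
      rw [← hinner]
      refine Finset.prod_congr rfl fun i _ => ?_
      rw [pow_add, pow_mul, hηprim.pow_eq_one, one_pow, one_mul]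
  conv_lhs => rw [hNfg]
  rw [← houter g]
  refine Finset.prod_congr rfl fun i _ => ?_
  rw [hη, ← pow_mul, mul_comm i a]

end Pool.Agent.helper90.Zp
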